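import Pool.Agent.H.MP_79ad04_gt.Data

set_option autoImplicit false
set_option maxRecDepth 100000

namespace Pool.Agent.H.MP_79ad04_gt

def vv (i a : ℕ) : ℤ := (Vd.getD i []).getD a 0
def ff (i a : ℕ) : ℤ := (Fd.getD i []).getD a 0
def ww (i j : ℕ) : ℤ := (Wd.getD i []).getD j 0
def dd (a k : ℕ) : ℤ := (Dd.getD a []).getD k 0

noncomputable def ev (U : ℕ → ℝ) : List (ℕ × ℤ) → ℝ
  | [] => 0
  | p :: l => (p.2 : ℝ) * U p.1 + ev U l

def ins (c : ℕ) (k : ℤ) : List (ℕ × ℤ) → List (ℕ × ℤ)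
  | [] => [(c, k)]
  | p :: l => if p.1 = c then (if p.2 + k = 0 then l else (c, p.2 + k) :: l) else p :: ins c k l

lemma ev_ins (U : ℕ → ℝ) (c : ℕ) (k : ℤ) (l : List (ℕ × ℤ)) :
    ev U (ins c k l) = k * U c + ev U l := by
  induction l with
  | nil => simp [ins, ev]
  | cons p l ih =>
    unfold ins
    split_ifs with h1 h2
    · have : (p.2 : ℝ) + k = 0 := by exact_mod_cast h2
      simp only [ev, h1]
      linear_combination (-U c) * this
    · simp only [ev, h1]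
      push_cast
      ring
    · simp only [ev, ih]
      ring

def addRow (Z : ℕ) (m : ℤ) : List (ℕ × ℤ) → List (ℕ × ℤ) → List (ℕ × ℤ)
  | [], acc => acc
  | p :: l, acc =>
    addRow Z m l (if Z.testBit p.1 = true ∨ p.2 = 0 then acc else ins p.1 (m * p.2) acc)

lemma ev_addRow (U : ℕ → ℝ) {Z : ℕ} (hZ : ∀ c, Z.testBit c = true → U c = 0) (m : ℤ)
    (r acc : List (ℕ × ℤ)) : ev U (addRow Z m r acc) = m * ev U r + ev U acc := by
  induction r generalizing acc with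
  | nil => simp [addRow, ev]
  | cons p l ih =>
    unfold addRow
    rw [ih]
    split_ifs with h
    · rcases h with h | h
      · simp [ev, hZ _ h]
      · simp [ev, h]
    · rw [ev_ins]
      simp only [ev]
      push_cast
      ring

def row (i j : ℕ) : List (ℕ × ℤ) :=
  [(7 * j + 0, vv i 0), (7 * j + 1, vv i 1), (7 * j + 2, vv i 2), (7 * j + 3, vv i 3),
   (7 * j + 4, vv i 4), (7 * j + 5, vv i 5), (7 * j + 6, vv i 6),
   (7 * i + 0, vv j 0), (7 * i + 1, vv j 1), (7 * i + 2, vv j 2), (7 * i + 3, vv j 3),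
   (7 * i + 4, vv j 4), (7 * i + 5, vv j 5), (7 * i + 6, vv j 6)]

def comb (Z : ℕ) (D : List (List (ℕ × ℤ))) : List (ℕ × ℤ) → List (ℕ × ℤ) → List (ℕ × ℤ)
  | [], acc => acc
  | q :: L, acc => comb Z D L (addRow Z q.2 (D.getD q.1 []) acc)

lemma ev_comb (U : ℕ → ℝ) {Z : ℕ} (hZ : ∀ c, Z.testBit c = true → U c = 0)
    {D : List (List (ℕ × ℤ))} (hD : ∀ r ∈ D, ev U r = 0) (L acc : List (ℕ × ℤ)) :
    ev U (comb Z D L acc) = ev U acc := by
  induction L generalizing acc with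
  | nil => simp [comb]
  | cons q L ih =>
    unfold comb
    rw [ih, ev_addRow U hZ]
    have : ev U (D.getD q.1 []) = 0 := by
      rcases lt_or_ge q.1 D.length with h | h
      · rw [List.getD_eq_getElem _ _ h]
        exact hD _ (List.getElem_mem h)
      · rw [List.getD_eq_default _ _ h]
        rfl
    rw [this, mul_zero, zero_add]

def valid (i j : ℕ) : Prop := i < 64 ∧ j < 64 ∧ (i = j ∨ ww i j ≠ 0)

instance (i j : ℕ) : Decidable (valid i j) := by unfold valid; infer_instance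

def fwd (Z : ℕ) : List (ℕ × ℕ × ℤ × List (ℕ × ℤ)) → List (List (ℕ × ℤ)) → List (List (ℕ × ℤ))
  | [], D => D
  | s :: L, D =>
    if valid s.1 s.2.1 then
      fwd Z L (comb Z D s.2.2.2 (addRow Z s.2.2.1 (row s.1 s.2.1) []) :: D)
    else []

lemma ev_fwd (U : ℕ → ℝ) {Z : ℕ} (hZ : ∀ c, Z.testBit c = true → U c = 0)
    (hrow : ∀ i j, valid i j → ev U (row i j) = 0) (L : List (ℕ × ℕ × ℤ × List (ℕ × ℤ)))
    {D : List (List (ℕ × ℤ))} (hD : ∀ r ∈ D, ev U r = 0) : ∀ r ∈ fwd Z L D, ev U r = 0 := by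
  induction L generalizing D with
  | nil => simpa [fwd] using hD
  | cons s L ih =>
    unfold fwd
    split_ifs with h
    · apply ih
      intro r hr
      rcases List.mem_cons.1 hr with rfl | hr
      · rw [ev_comb U hZ hD, ev_addRow U hZ, hrow _ _ h]
        simp [ev]
      · exact hD r hr
    · simp

def upd (Z : ℕ) : List (ℕ × ℤ) → ℕ
  | [p] => if p.2 = 0 then Z else Z ||| 2 ^ p.1
  | _ => Z

lemma upd_ok (U : ℕ → ℝ) {Z : ℕ} (hZ : ∀ c, Z.testBit c = true → U c = 0)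
    (r : List (ℕ × ℤ)) (hr : ev U r = 0) : ∀ c, (upd Z r).testBit c = true → U c = 0 := by
  match r, hr with
  | [], _ => exact hZ
  | [p], hr =>
    intro c hc
    have e : upd Z [p] = if p.2 = 0 then Z else Z ||| 2 ^ p.1 := rfl
    rw [e] at hc
    split_ifs at hc with h
    · exact hZ c hc
    · rw [Nat.testBit_or, Bool.or_eq_true, Nat.testBit_two_pow] at hc
      rcases hc with hc | hc
      · exact hZ c hc
      · have hc' : p.1 = c := by simpa using hc
        have h' : (p.2 : ℝ) ≠ 0 := by exact_mod_cast h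
        simp only [ev, add_zero, mul_eq_zero] at hr
        rw [← hc']
        exact hr.resolve_left h'
  | _ :: _ :: _, _ => exact hZ

def bwd : List (List (ℕ × ℤ)) → ℕ → ℕ
  | [], Z => Z
  | r :: D, Z => bwd D (upd Z (addRow Z 1 r []))

lemma bwd_ok (U : ℕ → ℝ) (D : List (List (ℕ × ℤ))) (hD : ∀ r ∈ D, ev U r = 0) {Z : ℕ}
    (hZ : ∀ c, Z.testBit c = true → U c = 0) : ∀ c, (bwd D Z).testBit c = true → U c = 0 := by
  induction D generalizing Z with
  | nil => exact hZ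
  | cons r D ih =>
    unfold bwd
    apply ih (fun r hr => hD r (List.mem_cons_of_mem _ hr))
    apply upd_ok U hZ
    rw [ev_addRow U hZ, hD r List.mem_cons_self]
    simp [ev]

lemma cert_ok : bwd (fwd Z0 cert []) Z0 = 2 ^ 448 - 1 := by decide +kernel

theorem kernel_zero (U : ℕ → ℝ) (hZ : ∀ c, Z0.testBit c = true → U c = 0)
    (hrow : ∀ i j, valid i j → ev U (row i j) = 0) : ∀ c, c < 448 → U c = 0 := by
  intro c hc
  apply bwd_ok U _ (ev_fwd U hZ hrow cert (D := []) (by simp)) hZ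
  rw [cert_ok, Nat.testBit_two_pow_sub_one]
  simpa using hc

lemma Z0_bits : ∀ c < 448, Z0.testBit c = true →
    c / 7 ∈ [16, 17, 24, 48, 54, 55, 57] ∨ c = 32 := by decide +kernel

lemma Z0_lt : Z0 < 2 ^ 448 := by decide +kernel

def dv (i j : ℕ) : ℤ := vv i 0 * vv j 0 + vv i 1 * vv j 1 + vv i 2 * vv j 2 + vv i 3 * vv j 3 +
  vv i 4 * vv j 4 + vv i 5 * vv j 5 + vv i 6 * vv j 6
def dvf (i j : ℕ) : ℤ := vv i 0 * ff j 0 + vv i 1 * ff j 1 + vv i 2 * ff j 2 + vv i 3 * ff j 3 +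
  vv i 4 * ff j 4 + vv i 5 * ff j 5 + vv i 6 * ff j 6
def df (i j : ℕ) : ℤ := ff i 0 * ff j 0 + ff i 1 * ff j 1 + ff i 2 * ff j 2 + ff i 3 * ff j 3 +
  ff i 4 * ff j 4 + ff i 5 * ff j 5 + ff i 6 * ff j 6

lemma dv_self : ∀ i : Fin 64, dv i i = 4 ∧ dvf i i = 0 := by decide +kernel
lemma dv_le : ∀ i j : Fin 64, i ≠ j → dv i j ≤ 2 := by decide +kernel
lemma ww_facts : ∀ i j : Fin 64, 0 ≤ ww i j ∧ ww i j = ww j i ∧ (ww i j ≠ 0 → dv i j = 2) := by
  decide +kernel
lemma flex : ∀ i j : Fin 64, dv i j = 2 → dvf i j + dvf j i = 0 := by decide +kernel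
lemma stress : ∀ (i : Fin 64) (a : Fin 7),
    2 * ∑ j : Fin 64, ww i j * vv j a = (∑ j : Fin 64, ww i j) * vv i a := by decide +kernel
lemma Qpos : 0 < 2 * ∑ i : Fin 64, ∑ j : Fin 64, ww i j * df i j -
    ∑ i : Fin 64, (∑ j : Fin 64, ww i j) * df i i := by decide +kernel

def sd : Fin 7 → Fin 64 := ![16, 17, 24, 48, 54, 55, 57]

lemma dual1 : ∀ a b : Fin 7, ∑ k : Fin 7, dd a k * vv (sd k) b = if a = b then 4 else 0 := by
  decide +kernel
lemma dual2 : ∀ k l : Fin 7, ∑ a : Fin 7, vv (sd k) a * dd a l = if k = l then 4 else 0 := by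
  decide +kernel
lemma sd_valid : ∀ k l : Fin 7, k = l ∨ ww (sd k) (sd l) ≠ 0 := by decide +kernel
lemma ff_sd : ∀ (k a : Fin 7), ff (sd k) a = 0 := by decide +kernel
lemma ff_pin : ff 4 4 = -4 := by decide +kernel
lemma dv_01 : dv 16 17 = 2 := by decide +kernel

end Pool.Agent.H.MP_79ad04_gt
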