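import Mathlib

set_option autoImplicit false
set_option maxRecDepth 100000

namespace Pool.Agent.H.MP_79ad04_gt

def Vd : List (List ℤ) := [[1,-1,0,0,1,0,-1],
  [0,-1,0,1,1,1,0],
  [0,-1,1,-1,0,0,-1],
  [0,0,-1,0,1,-1,-1],
  [-1,-1,1,0,0,1,0],
  [-1,-1,-1,0,0,1,0],
  [-1,-1,0,0,1,0,1],
  [-1,0,0,1,0,1,-1],
  [-1,0,1,1,1,0,0],
  [-1,0,-1,1,1,0,0],
  [-1,-1,0,0,-1,0,-1],
  [-1,-1,1,0,0,-1,0],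
  [-1,0,-1,-1,1,0,0],
  [-1,1,0,0,1,0,-1],
  [-1,0,0,-1,0,-1,-1],
  [-2,0,0,0,0,0,0],
  [1,0,0,-1,0,1,-1],
  [1,-1,0,0,-1,0,-1],
  [1,0,1,-1,1,0,0],
  [1,-1,1,0,0,-1,0],
  [1,0,-1,-1,1,0,0],
  [1,-1,-1,0,0,-1,0],
  [1,1,0,0,1,0,-1],
  [1,0,0,1,0,-1,-1],
  [1,0,0,-1,0,-1,-1],
  [0,0,0,0,0,2,0],
  [0,0,1,0,1,1,1],
  [0,-1,-1,1,0,0,1],
  [0,0,0,2,0,0,0],
  [0,-1,-1,-1,0,0,1],
  [0,0,-1,0,-1,1,-1],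
  [0,1,0,-1,1,1,0],
  [0,-1,0,1,-1,-1,0],
  [0,0,1,0,1,-1,1],
  [0,1,1,1,0,0,-1],
  [0,0,0,-2,0,0,0],
  [0,1,1,-1,0,0,-1],
  [0,0,-1,0,-1,-1,-1],
  [0,0,0,0,0,-2,0],
  [-1,0,0,1,0,1,1],
  [-1,0,0,-1,0,1,1],
  [-1,-1,0,0,-1,0,1],
  [-1,1,1,0,0,1,0],
  [-1,0,1,1,-1,0,0],
  [-1,1,-1,0,0,1,0],
  [-1,0,-1,1,-1,0,0],
  [-1,1,0,0,1,0,1],
  [-1,0,0,1,0,-1,1],
  [2,0,0,0,0,0,0],
  [1,0,0,1,0,1,1],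
  [1,-1,0,0,-1,0,1],
  [1,0,1,1,-1,0,0],
  [1,1,-1,0,0,1,0],
  [1,1,0,0,1,0,1],
  [1,0,1,-1,-1,0,0],
  [1,0,-1,-1,-1,0,0],
  [1,0,0,-1,0,-1,1],
  [1,1,0,0,-1,0,-1],
  [1,1,1,0,0,-1,0],
  [1,1,-1,0,0,-1,0],
  [0,0,1,0,-1,1,1],
  [0,1,-1,1,0,0,1],
  [0,1,0,-1,-1,-1,0],
  [-1,1,0,0,-1,0,1]]

def Fd : List (List ℤ) := [[0,0,0,0,0,0,0],
  [0,-2,4,-2,-2,2,0],
  [0,0,0,0,0,0,0],
  [0,0,0,0,0,0,0],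
  [0,2,2,-2,-4,0,2],
  [0,-1,2,-1,-1,1,0],
  [0,-1,2,-1,-1,1,0],
  [0,-1,2,-1,-1,1,0],
  [0,-1,2,-1,-1,1,0],
  [0,-4,2,0,2,2,-2],
  [0,1,1,-1,-2,0,1],
  [0,1,1,-1,-2,0,1],
  [0,-2,1,0,1,1,-1],
  [0,-2,1,0,1,1,-1],
  [0,0,0,0,0,0,0],
  [0,0,0,0,0,0,0],
  [0,0,0,0,0,0,0],
  [0,0,0,0,0,0,0],
  [0,0,0,0,0,0,0],
  [0,0,0,0,0,0,0],
  [0,0,0,0,0,0,0],
  [0,0,0,0,0,0,0],
  [0,0,0,0,0,0,0],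
  [0,0,0,0,0,0,0],
  [0,0,0,0,0,0,0],
  [0,1,1,-1,-2,0,1],
  [0,1,1,-1,-2,0,1],
  [0,-2,1,0,1,1,-1],
  [0,-2,1,0,1,1,-1],
  [0,0,0,0,0,0,0],
  [0,0,0,0,0,0,0],
  [0,0,0,0,0,0,0],
  [0,0,0,0,0,0,0],
  [0,0,0,0,0,0,0],
  [0,0,0,0,0,0,0],
  [0,0,0,0,0,0,0],
  [0,0,0,0,0,0,0],
  [0,0,0,0,0,0,0],
  [0,0,0,0,0,0,0],
  [0,0,0,0,0,0,0],
  [0,2,-1,0,-1,-1,1],
  [0,2,-1,0,-1,-1,1],
  [0,2,-1,0,-1,-1,1],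
  [0,2,-1,0,-1,-1,1],
  [0,-1,-1,1,2,0,-1],
  [0,-1,-1,1,2,0,-1],
  [0,-1,-1,1,2,0,-1],
  [0,-1,-1,1,2,0,-1],
  [0,0,0,0,0,0,0],
  [0,0,0,0,0,0,0],
  [0,0,0,0,0,0,0],
  [0,0,0,0,0,0,0],
  [0,0,0,0,0,0,0],
  [0,0,0,0,0,0,0],
  [0,0,0,0,0,0,0],
  [0,0,0,0,0,0,0],
  [0,0,0,0,0,0,0],
  [0,0,0,0,0,0,0],
  [0,0,0,0,0,0,0],
  [0,0,0,0,0,0,0],
  [0,4,-2,0,-2,-2,2],
  [0,-2,-2,2,4,0,-2],
  [0,0,0,0,0,0,0],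
  [0,2,-4,2,2,-2,0]]

def Wd : List (List ℤ) := [[0,68,32,32,0,0,0,0,0,0,0,0,0,0,0,0,8,20,8,20,20,8,20,8,8,0,0,0,0,0,0,0,0,0,0,0,0,0,0,0,0,0,0,0,0,0,0,0,4,0,0,0,0,0,0,0,0,0,0,0,0,0,0,0],
  [68,0,0,0,12,24,24,24,24,12,0,0,0,0,0,0,0,0,0,0,0,0,0,0,0,4,4,4,4,0,0,0,0,0,0,0,0,0,0,4,0,0,0,0,0,0,0,0,0,56,0,0,0,0,0,0,0,0,0,0,0,0,0,0],
  [32,0,0,0,40,0,0,0,0,0,12,12,0,0,32,0,12,4,12,4,0,0,0,0,4,0,0,0,0,0,0,0,0,0,0,4,4,0,0,0,0,0,0,0,0,0,0,0,0,0,0,0,0,0,28,0,0,0,0,0,0,0,0,0],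
  [32,0,0,0,0,0,0,0,0,40,0,0,12,12,32,0,0,0,0,0,4,12,4,12,4,0,0,0,0,0,0,0,0,0,0,0,0,4,4,0,0,0,0,0,0,0,0,0,0,0,0,0,0,0,0,0,0,0,0,28,0,0,0,0],
  [0,12,40,0,0,12,12,12,12,0,221,221,0,0,0,4,0,0,0,0,0,0,0,0,0,221,221,0,0,0,0,0,0,0,0,0,0,0,0,4,4,4,4,4,0,0,0,0,0,0,0,0,0,0,0,0,0,0,0,0,28,0,0,0],
  [0,24,0,0,12,0,4,4,0,12,16,0,16,0,0,4,0,0,0,0,0,0,0,0,0,4,0,4,0,32,32,0,0,0,0,0,0,0,0,4,4,4,0,0,4,4,0,0,0,0,0,0,0,0,0,0,0,0,0,0,0,0,0,0],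
  [0,24,0,0,12,4,0,0,4,12,0,16,16,0,0,4,0,0,0,0,0,0,0,0,0,0,4,4,0,32,0,0,0,32,0,0,0,0,0,4,4,4,0,0,0,0,4,4,0,0,0,0,0,0,0,0,0,0,0,0,0,0,0,0],
  [0,24,0,0,12,4,0,0,4,12,16,0,0,16,0,4,0,0,0,0,0,0,0,0,0,4,0,0,4,0,32,0,0,0,32,0,0,0,0,4,0,0,4,4,4,4,0,0,0,0,0,0,0,0,0,0,0,0,0,0,0,0,0,0],
  [0,24,0,0,12,0,4,4,0,12,0,16,0,16,0,4,0,0,0,0,0,0,0,0,0,0,4,0,4,0,0,0,0,32,32,0,0,0,0,4,0,0,4,4,0,0,4,4,0,0,0,0,0,0,0,0,0,0,0,0,0,0,0,0],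
  [0,12,0,40,0,12,12,12,12,0,0,0,221,221,0,4,0,0,0,0,0,0,0,0,0,0,0,221,221,0,0,0,0,0,0,0,0,0,0,4,0,0,0,0,4,4,4,4,0,0,0,0,0,0,0,0,0,0,0,0,0,28,0,0],
  [0,0,12,0,221,16,0,16,0,0,0,4,0,0,36,4,0,28,0,0,0,0,0,0,0,0,0,0,0,0,16,0,12,0,0,0,0,217,0,0,0,16,0,16,0,4,0,0,0,0,0,0,0,0,0,0,0,0,0,0,0,0,0,0],
  [0,0,12,0,221,0,16,0,16,0,4,0,0,0,36,4,0,0,0,28,0,0,0,0,0,0,0,0,0,0,0,0,12,16,0,0,0,0,217,0,0,16,0,16,0,0,0,4,0,0,0,0,0,0,0,0,0,0,0,0,0,0,0,0],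
  [0,0,0,12,0,16,16,0,0,221,0,0,0,4,36,4,0,0,0,0,28,0,0,0,0,0,0,0,0,16,0,12,0,0,0,217,0,0,0,0,4,0,0,0,16,0,16,0,0,0,0,0,0,0,0,0,0,0,0,0,0,0,0,0],
  [0,0,0,12,0,0,0,16,16,221,0,0,4,0,36,4,0,0,0,0,0,0,28,0,0,0,0,0,0,0,0,12,0,0,16,0,217,0,0,0,0,0,4,0,16,0,16,0,0,0,0,0,0,0,0,0,0,0,0,0,0,0,0,0],
  [0,0,32,32,0,0,0,0,0,0,36,36,36,36,0,24,0,0,0,0,0,0,0,0,16,0,0,0,0,0,0,0,0,0,0,12,12,12,12,0,0,0,0,0,0,0,0,0,0,0,0,0,0,0,0,0,0,0,0,0,0,0,56,0],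
  [0,0,0,0,4,4,4,4,4,4,4,4,4,4,24,0,0,0,0,0,0,0,0,0,0,0,0,0,0,0,0,0,0,0,0,0,0,0,0,4,4,8,4,8,8,4,8,4,0,0,0,0,0,0,0,0,0,0,0,0,0,0,0,4],
  [8,0,12,0,0,0,0,0,0,0,0,0,0,0,0,0,0,8,4,0,4,0,4,0,4,16,0,0,0,0,12,12,0,0,0,4,4,0,0,0,0,0,0,0,0,0,0,0,4,0,0,0,4,0,4,4,0,4,0,0,0,0,0,0],
  [20,0,4,0,0,0,0,0,0,0,28,0,0,0,0,0,8,0,0,4,0,4,0,4,4,0,0,0,0,0,16,0,4,0,0,0,0,4,0,0,0,0,0,0,0,0,0,0,8,0,16,16,0,0,4,4,0,4,0,0,0,0,0,0],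
  [8,0,12,0,0,0,0,0,0,0,0,0,0,0,0,0,4,0,0,8,4,0,4,0,4,0,16,0,0,0,0,12,0,12,0,4,4,0,0,0,0,0,0,0,0,0,0,0,4,0,0,0,0,4,4,0,4,0,4,0,0,0,0,0],
  [20,0,4,0,0,0,0,0,0,0,0,28,0,0,0,0,0,4,8,0,0,4,0,4,4,0,0,0,0,0,0,0,4,16,0,0,0,0,4,0,0,0,0,0,0,0,0,0,8,0,16,16,0,0,4,0,4,0,4,0,0,0,0,0],
  [20,0,0,4,0,0,0,0,0,0,0,0,28,0,0,0,4,0,4,0,0,8,4,0,4,0,0,0,0,16,0,4,0,0,0,4,0,0,0,0,0,0,0,0,0,0,0,0,8,0,0,0,16,16,0,4,4,0,0,4,0,0,0,0],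
  [8,0,0,12,0,0,0,0,0,0,0,0,0,0,0,0,0,4,0,4,8,0,0,4,4,0,0,16,0,12,0,0,12,0,0,0,0,4,4,0,0,0,0,0,0,0,0,0,4,0,4,0,0,0,0,4,4,0,0,4,0,0,0,0],
  [20,0,0,4,0,0,0,0,0,0,0,0,0,28,0,0,4,0,4,0,4,0,0,8,4,0,0,0,0,0,0,4,0,0,16,0,4,0,0,0,0,0,0,0,0,0,0,0,8,0,0,0,16,16,0,0,0,4,4,4,0,0,0,0],
  [8,0,0,12,0,0,0,0,0,0,0,0,0,0,0,0,0,4,0,4,0,4,8,0,4,0,0,0,16,0,0,0,12,0,12,0,0,4,4,0,0,0,0,0,0,0,0,0,4,0,0,4,0,0,0,0,0,4,4,4,0,0,0,0],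
  [8,0,4,4,0,0,0,0,0,0,0,0,0,0,16,0,4,4,4,4,4,4,4,4,0,0,0,0,0,0,0,0,0,0,0,4,4,4,4,0,0,0,0,0,0,0,0,0,4,0,0,0,0,0,4,4,4,4,4,4,0,0,4,0],
  [0,4,0,0,221,4,0,4,0,0,0,0,0,0,0,0,16,0,0,0,0,0,0,0,0,0,4,0,0,0,8,4,0,0,0,0,0,0,0,4,4,0,4,0,4,0,0,0,0,12,0,0,217,0,0,0,0,0,0,0,4,0,0,0],
  [0,4,0,0,221,0,4,0,4,0,0,0,0,0,0,0,0,0,16,0,0,0,0,0,0,4,0,0,0,0,0,4,0,8,0,0,0,0,0,4,4,0,4,0,0,0,4,0,0,12,0,0,0,217,0,0,0,0,0,0,4,0,0,0],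
  [0,4,0,0,0,4,4,0,0,221,0,0,0,0,0,0,0,0,0,0,0,16,0,0,0,0,0,0,4,8,0,0,4,0,0,0,0,0,0,4,0,4,0,0,0,4,0,4,0,12,217,0,0,0,0,0,0,0,0,0,0,4,0,0],
  [0,4,0,0,0,0,0,4,4,221,0,0,0,0,0,0,0,0,0,0,0,0,0,16,0,0,0,4,0,0,0,0,4,0,8,0,0,0,0,4,0,0,0,4,0,4,0,4,0,12,0,217,0,0,0,0,0,0,0,0,0,4,0,0],
  [0,0,0,0,0,32,32,0,0,0,0,0,16,0,0,0,0,0,0,0,16,12,0,0,0,0,0,8,0,0,0,0,0,0,0,8,0,0,0,0,12,16,0,0,0,0,0,0,0,0,16,0,0,0,0,32,32,0,0,0,0,0,0,0],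
  [0,0,0,0,0,32,0,32,0,0,16,0,0,0,0,0,12,16,0,0,0,0,0,0,0,8,0,0,0,0,0,0,0,0,0,0,0,8,0,0,0,0,0,0,16,12,0,0,0,0,0,0,16,0,0,32,0,32,0,0,0,0,0,0],
  [0,0,0,0,0,0,0,0,0,0,0,0,12,12,0,0,12,0,12,0,4,0,4,0,0,4,4,0,0,0,0,0,0,0,0,4,4,0,0,0,12,0,12,0,4,0,4,0,0,0,0,0,12,12,0,0,0,0,0,0,0,0,0,0],
  [0,0,0,0,0,0,0,0,0,0,12,12,0,0,0,0,0,4,0,4,0,12,0,12,0,0,0,4,4,0,0,0,0,0,0,0,0,4,4,0,0,4,0,4,0,12,0,12,0,0,12,12,0,0,0,0,0,0,0,0,0,0,0,0],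
  [0,0,0,0,0,0,32,0,32,0,0,16,0,0,0,0,0,0,12,16,0,0,0,0,0,0,8,0,0,0,0,0,0,0,0,0,0,0,8,0,0,0,0,0,0,0,16,12,0,0,0,0,0,16,0,0,32,0,32,0,0,0,0,0],
  [0,0,0,0,0,0,0,32,32,0,0,0,0,16,0,0,0,0,0,0,0,0,16,12,0,0,0,0,8,0,0,0,0,0,0,0,8,0,0,0,0,0,12,16,0,0,0,0,0,0,0,16,0,0,0,0,0,32,32,0,0,0,0,0],
  [0,0,4,0,0,0,0,0,0,0,0,0,217,0,12,0,4,0,4,0,4,0,0,0,4,0,0,0,0,8,0,4,0,0,0,0,4,0,0,0,16,0,0,0,0,0,0,0,0,0,0,0,0,0,221,4,4,0,0,0,0,0,4,0],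
  [0,0,4,0,0,0,0,0,0,0,0,0,0,217,12,0,4,0,4,0,0,0,4,0,4,0,0,0,0,0,0,4,0,0,8,4,0,0,0,0,0,0,16,0,0,0,0,0,0,0,0,0,0,0,221,0,0,4,4,0,0,0,4,0],
  [0,0,0,4,0,0,0,0,0,0,217,0,0,0,12,0,0,4,0,0,0,4,0,4,4,0,0,0,0,0,8,0,4,0,0,0,0,0,4,0,0,0,0,0,0,16,0,0,0,0,0,0,0,0,0,4,0,4,0,221,0,0,4,0],
  [0,0,0,4,0,0,0,0,0,0,0,217,0,0,12,0,0,0,0,4,0,4,0,4,4,0,0,0,0,0,0,0,4,8,0,0,0,4,0,0,0,0,0,0,0,0,0,16,0,0,0,0,0,0,0,0,4,0,4,221,0,0,4,0],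
  [0,4,0,0,4,4,4,4,4,4,0,0,0,0,0,4,0,0,0,0,0,0,0,0,0,4,4,4,4,0,0,0,0,0,0,0,0,0,0,0,4,4,4,4,4,4,4,4,0,16,0,0,0,0,0,0,0,0,0,0,4,4,0,8],
  [0,0,0,0,4,4,4,0,0,0,0,0,4,0,0,4,0,0,0,0,0,0,0,0,0,4,4,0,0,12,0,12,0,0,0,16,0,0,0,4,0,8,4,0,4,0,4,0,0,0,0,0,0,0,0,0,0,0,0,0,12,0,0,8],
  [0,0,0,0,4,4,4,0,0,0,16,16,0,0,0,8,0,0,0,0,0,0,0,0,0,0,0,4,0,16,0,0,4,0,0,0,0,0,0,4,8,0,0,4,0,4,0,4,0,0,28,0,0,0,0,0,0,0,0,0,4,0,0,20],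
  [0,0,0,0,4,0,0,4,4,0,0,0,0,4,0,4,0,0,0,0,0,0,0,0,0,4,4,0,0,0,0,12,0,0,12,0,16,0,0,4,4,0,0,8,4,0,4,0,0,0,0,0,0,0,0,0,0,0,0,0,12,0,0,8],
  [0,0,0,0,4,0,0,4,4,0,16,16,0,0,0,8,0,0,0,0,0,0,0,0,0,0,0,0,4,0,0,0,4,0,16,0,0,0,0,4,0,4,8,0,0,4,0,4,0,0,0,28,0,0,0,0,0,0,0,0,4,0,0,20],
  [0,0,0,0,0,4,0,4,0,4,0,0,16,16,0,8,0,0,0,0,0,0,0,0,0,4,0,0,0,0,16,4,0,0,0,0,0,0,0,4,4,0,4,0,0,8,4,0,0,0,0,0,28,0,0,0,0,0,0,0,0,4,0,20],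
  [0,0,0,0,0,4,0,4,0,4,4,0,0,0,0,4,0,0,0,0,0,0,0,0,0,0,0,4,4,0,12,0,12,0,0,0,0,16,0,4,0,4,0,4,8,0,0,4,0,0,0,0,0,0,0,0,0,0,0,0,0,12,0,8],
  [0,0,0,0,0,0,4,0,4,4,0,0,16,16,0,8,0,0,0,0,0,0,0,0,0,0,4,0,0,0,0,4,0,16,0,0,0,0,0,4,4,0,4,0,4,0,0,8,0,0,0,0,0,28,0,0,0,0,0,0,0,4,0,20],
  [0,0,0,0,0,0,4,0,4,4,0,4,0,0,0,4,0,0,0,0,0,0,0,0,0,0,0,4,4,0,0,0,12,12,0,0,0,0,16,4,0,4,0,4,0,4,8,0,0,0,0,0,0,0,0,0,0,0,0,0,0,12,0,8],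
  [4,0,0,0,0,0,0,0,0,0,0,0,0,0,0,0,4,8,4,8,8,4,8,4,4,0,0,0,0,0,0,0,0,0,0,0,0,0,0,0,0,0,0,0,0,0,0,0,0,24,4,4,4,4,4,4,4,4,4,4,0,0,0,0],
  [0,56,0,0,0,0,0,0,0,0,0,0,0,0,0,0,0,0,0,0,0,0,0,0,0,12,12,12,12,0,0,0,0,0,0,0,0,0,0,16,0,0,0,0,0,0,0,0,24,0,36,36,36,36,0,0,0,0,0,0,32,32,0,0],
  [0,0,0,0,0,0,0,0,0,0,0,0,0,0,0,0,0,16,0,16,0,4,0,0,0,0,0,217,0,16,0,0,12,0,0,0,0,0,0,0,0,28,0,0,0,0,0,0,4,36,0,4,0,0,221,16,16,0,0,0,12,0,0,0],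
  [0,0,0,0,0,0,0,0,0,0,0,0,0,0,0,0,0,16,0,16,0,0,0,4,0,0,0,0,217,0,0,0,12,0,16,0,0,0,0,0,0,0,0,28,0,0,0,0,4,36,4,0,0,0,221,0,0,16,16,0,12,0,0,0],
  [0,0,0,0,0,0,0,0,0,0,0,0,0,0,0,0,4,0,0,0,16,0,16,0,0,217,0,0,0,0,16,12,0,0,0,0,0,0,0,0,0,0,0,0,28,0,0,0,4,36,0,0,0,4,0,16,0,16,0,221,0,12,0,0],
  [0,0,0,0,0,0,0,0,0,0,0,0,0,0,0,0,0,0,4,0,16,0,16,0,0,0,217,0,0,0,0,12,0,16,0,0,0,0,0,0,0,0,0,0,0,0,28,0,4,36,0,0,4,0,0,0,16,0,16,221,0,12,0,0],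
  [0,0,28,0,0,0,0,0,0,0,0,0,0,0,0,0,4,4,4,4,0,0,0,0,4,0,0,0,0,0,0,0,0,0,0,221,221,0,0,0,0,0,0,0,0,0,0,0,4,0,221,221,0,0,0,12,12,12,12,0,40,0,12,0],
  [0,0,0,0,0,0,0,0,0,0,0,0,0,0,0,0,4,4,0,0,4,4,0,0,4,0,0,0,0,32,32,0,0,0,0,4,0,4,0,0,0,0,0,0,0,0,0,0,4,0,16,0,16,0,12,0,4,4,0,12,0,0,24,0],
  [0,0,0,0,0,0,0,0,0,0,0,0,0,0,0,0,0,0,4,4,4,4,0,0,4,0,0,0,0,32,0,0,0,32,0,4,0,0,4,0,0,0,0,0,0,0,0,0,4,0,16,0,0,16,12,4,0,0,4,12,0,0,24,0],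
  [0,0,0,0,0,0,0,0,0,0,0,0,0,0,0,0,4,4,0,0,0,0,4,4,4,0,0,0,0,0,32,0,0,0,32,0,4,4,0,0,0,0,0,0,0,0,0,0,4,0,0,16,16,0,12,4,0,0,4,12,0,0,24,0],
  [0,0,0,0,0,0,0,0,0,0,0,0,0,0,0,0,0,0,4,4,0,0,4,4,4,0,0,0,0,0,0,0,0,32,32,0,4,0,4,0,0,0,0,0,0,0,0,0,4,0,0,16,0,16,12,0,4,4,0,12,0,0,24,0],
  [0,0,0,28,0,0,0,0,0,0,0,0,0,0,0,0,0,0,0,0,4,4,4,4,4,0,0,0,0,0,0,0,0,0,0,0,0,221,221,0,0,0,0,0,0,0,0,0,4,0,0,0,221,221,0,12,12,12,12,0,0,40,12,0],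
  [0,0,0,0,28,0,0,0,0,0,0,0,0,0,0,0,0,0,0,0,0,0,0,0,0,4,4,0,0,0,0,0,0,0,0,0,0,0,0,4,12,4,12,4,0,0,0,0,0,32,12,12,0,0,40,0,0,0,0,0,0,0,0,32],
  [0,0,0,0,0,0,0,0,0,28,0,0,0,0,0,0,0,0,0,0,0,0,0,0,0,0,0,4,4,0,0,0,0,0,0,0,0,0,0,4,0,0,0,0,4,12,4,12,0,32,0,0,12,12,0,0,0,0,0,40,0,0,0,32],
  [0,0,0,0,0,0,0,0,0,0,0,0,0,0,56,0,0,0,0,0,0,0,0,0,4,0,0,0,0,0,0,0,0,0,0,4,4,4,4,0,0,0,0,0,0,0,0,0,0,0,0,0,0,0,12,24,24,24,24,12,0,0,0,68],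
  [0,0,0,0,0,0,0,0,0,0,0,0,0,0,0,4,0,0,0,0,0,0,0,0,0,0,0,0,0,0,0,0,0,0,0,0,0,0,0,8,8,20,8,20,20,8,20,8,0,0,0,0,0,0,0,0,0,0,0,0,32,32,68,0]]

def Dd : List (List ℤ) := [[0,0,0,2,0,0,0],
  [0,-2,0,0,0,0,2],
  [0,0,0,0,2,-2,0],
  [-1,1,-1,1,-1,-1,1],
  [1,-1,1,1,-1,-1,-1],
  [2,0,-2,0,0,0,0],
  [-1,-1,-1,1,1,1,-1]]

def cert0 : List (ℕ × ℕ × ℤ × List (ℕ × ℤ)) := [(15,15,1,[]),
  (25,25,1,[]),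
  (28,28,1,[]),
  (35,35,1,[]),
  (38,38,1,[]),
  (0,48,1,[]),
  (18,48,1,[]),
  (19,48,1,[]),
  (20,48,1,[]),
  (21,48,1,[]),
  (22,48,1,[]),
  (23,48,1,[]),
  (48,49,1,[]),
  (48,50,1,[]),
  (48,51,1,[]),
  (48,52,1,[]),
  (48,53,1,[]),
  (48,56,1,[]),
  (48,58,1,[]),
  (48,59,1,[]),
  (16,30,1,[]),
  (23,23,1,[(9,-1)]),
  (23,24,2,[(10,-1),(0,1)]),
  (56,56,1,[(5,-1)]),
  (24,56,2,[(6,-1),(0,1)]),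
  (16,52,2,[(9,-1)]),
  (0,0,1,[(20,-1)]),
  (0,17,2,[(21,-1),(0,-1)]),
  (49,49,1,[(15,-1)]),
  (51,51,1,[(14,-1)]),
  (51,54,2,[(15,-1),(0,-1)]),
  (52,52,1,[(15,-1)]),
  (0,16,2,[(26,-1)]),
  (0,24,2,[(27,-1),(0,-1)]),
  (16,25,4,[(32,-1)]),
  (25,39,4,[(33,-1),(0,1)]),
  (7,25,4,[(34,-1),(1,1)]),
  (25,49,4,[(35,-1),(2,1)]),
  (16,35,4,[(34,-1)]),
  (14,35,4,[(35,-1),(0,1)]),
  (24,35,4,[(36,-1),(1,1)]),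
  (35,40,4,[(37,-1),(2,-1),(0,1)]),
  (31,35,8,[(38,-2),(3,-2),(1,1)]),
  (35,56,4,[(39,-1),(18,-2),(4,1),(2,-1)]),
  (17,51,2,[(29,-1)]),
  (51,57,2,[(30,-1),(0,1)]),
  (24,38,4,[(41,-1)]),
  (38,47,4,[(42,-1),(0,1)]),
  (14,38,4,[(43,-1),(1,-1)]),
  (38,56,4,[(44,-1),(5,1),(2,-1)])]

def cert1 : List (ℕ × ℕ × ℤ × List (ℕ × ℤ)) := [(24,59,2,[(30,-1)]),
  (52,57,2,[(35,-1)]),
  (52,55,2,[(36,-1),(26,-1),(20,-1),(0,1)]),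
  (52,53,2,[(37,-1),(36,-1),(1,-1),(0,1)]),
  (2,17,1,[]),
  (28,51,4,[(52,-1),(24,2)]),
  (9,28,4,[(53,-1),(0,1)]),
  (8,28,4,[(54,-1),(1,1)]),
  (28,43,4,[(55,-1),(2,-1)]),
  (25,52,4,[(57,-1)]),
  (3,38,8,[(55,-2),(10,1)]),
  (25,26,8,[(59,-2),(24,1)]),
  (25,30,8,[(60,-2),(25,-1),(0,1)]),
  (27,28,8,[(60,-2),(5,1)]),
  (28,34,8,[(61,-2),(6,-1),(0,1)]),
  (23,28,8,[(62,-2),(43,-8),(42,4),(6,1)]),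
  (28,39,8,[(63,-2),(7,-1),(0,1)]),
  (7,28,8,[(64,-2),(8,-1),(1,1)]),
  (39,39,8,[(32,-2),(1,-1)]),
  (39,49,16,[(56,8),(40,-8),(33,-2),(2,-1),(0,-1)]),
  (28,49,8,[(67,-2),(41,-8),(32,2),(11,1),(4,1)]),
  (50,50,1,[(57,-1)]),
  (17,50,2,[(58,-1),(0,-1)]),
  (53,53,1,[(56,-1)]),
  (16,18,2,[(67,-1)]),
  (18,24,2,[(68,-1),(0,1)]),
  (16,20,2,[(67,-1)]),
  (20,24,2,[(68,-1),(0,1)]),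
  (16,22,2,[(67,-1)]),
  (22,24,2,[(68,-1),(0,-1)]),
  (17,19,2,[(72,-1)]),
  (17,21,2,[(71,-1)]),
  (19,24,2,[(74,-1)]),
  (19,54,2,[(75,-1),(2,-1),(0,-1)]),
  (21,24,2,[(74,-1)]),
  (50,54,2,[(71,-1)]),
  (50,55,2,[(72,-1),(0,1)]),
  (50,51,2,[(73,-1),(72,-1),(42,-1),(1,-1)]),
  (21,50,4,[(78,-2),(74,-2),(16,-2),(15,-1),(6,-2),(2,2),(0,1)]),
  (54,58,2,[(70,-1)]),
  (51,58,4,[(75,-2),(71,-2),(60,-2),(59,-1),(45,2),(0,-2)]),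
  (29,50,2,[(19,-1),(5,1),(3,1)]),
  (57,59,2,[(72,-1)]),
  (17,23,4,[(81,-2),(70,-1)]),
  (23,57,4,[(82,-2),(71,-1),(0,-1)]),
  (0,23,4,[(89,-2),(83,-2),(72,-1),(62,2),(1,1),(0,1)]),
  (22,23,4,[(85,-2),(84,-2),(73,-1),(17,2),(2,1)]),
  (35,54,8,[(93,-2),(56,-1)]),
  (12,35,8,[(94,-2),(57,1),(0,1)]),
  (18,35,8,[(95,-2),(58,-1),(1,-1)])]

def cert2 : List (ℕ × ℕ × ℤ × List (ℕ × ℤ)) := [(20,35,8,[(96,-2),(59,-1),(2,1)]),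
  (12,12,8,[(2,-1)]),
  (35,55,8,[(98,-2),(61,-1),(4,1),(2,1)]),
  (2,35,8,[(99,-2),(60,1),(5,-1),(3,-1),(0,1)]),
  (29,35,8,[(100,-2),(61,1),(6,1)]),
  (54,56,8,[(87,-4),(80,-2),(61,-1)]),
  (55,56,8,[(88,-4),(81,-2),(62,-1),(0,-1)]),
  (20,56,8,[(98,-4),(89,-4),(82,-2),(63,-1),(30,4),(6,-1),(1,1)]),
  (56,59,32,[(90,-16),(88,-16),(64,4),(57,-16),(1,-2),(0,1)]),
  (18,18,16,[(102,-16),(6,-2),(1,-1)]),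
  (18,54,32,[(103,-16),(7,-2),(2,-1),(0,-1)]),
  (20,20,16,[(102,-16),(10,-2),(3,-1)]),
  (20,55,32,[(103,-16),(11,-2),(4,-1),(0,-1)]),
  (12,20,32,[(104,16),(14,-2),(12,-2),(11,-2),(5,-1),(1,-1)]),
  (35,62,16,[(110,-4),(75,4),(73,-2),(71,-2),(14,2),(11,-2),(6,-1)]),
  (18,33,32,[(40,16),(12,-2),(7,-1),(5,-1)]),
  (35,36,16,[(112,-4),(73,-2),(18,-2),(8,-1)]),
  (21,56,32,[(107,-16),(99,-16),(73,4),(32,-16),(10,-2),(9,1)]),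
  (50,56,32,[(104,-16),(100,-16),(94,-16),(93,8),(45,8),(30,8),(29,-8),(12,-4),(11,-2),(10,1),(0,1)]),
  (29,56,64,[(95,-32),(75,-8),(14,-4),(12,-4),(11,-4),(0,-1)]),
  (53,56,64,[(103,-32),(102,-32),(96,-32),(95,16),(14,8),(13,4),(12,-2),(1,1)]),
  (0,21,64,[(115,-32),(111,-32),(94,-32),(93,-16),(87,-16),(39,32),(25,8),(3,2),(2,-1)]),
  (0,20,64,[(116,-32),(113,-32),(94,16),(89,-32),(88,-16),(44,-16),(26,8),(21,4),(14,2),(9,1),(0,-1)]),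
  (14,14,16,[(83,-4),(74,-4),(15,1)]),
  (14,24,32,[(84,-4),(75,-4),(16,1),(0,1)]),
  (23,38,16,[(120,-4),(78,4),(75,4),(17,1)]),
  (50,60,64,[(53,16),(40,-32),(38,-16),(37,16),(8,-2),(7,1)]),
  (33,38,16,[(122,-4),(77,-2),(66,-2),(19,-1)]),
  (1,1,1,[]),
  (7,7,1,[]),
  (3,24,1,[]),
  (3,14,64,[(82,-8),(6,-1),(0,-64)]),
  (12,14,64,[(92,-8),(33,-4),(24,2),(18,1),(8,-2),(7,1),(0,-1)]),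
  (17,30,1,[]),
  (30,57,1,[(0,-1)]),
  (34,57,1,[]),
  (54,60,1,[]),
  (51,60,4,[(107,-2),(106,-1),(46,1),(0,4)]),
  (57,62,1,[]),
  (2,16,16,[(35,-1)]),
  (2,24,16,[(36,-1),(0,1)]),
  (21,23,64,[(131,-32),(129,-32),(56,32),(46,8),(23,2),(22,-1)]),
  (23,59,64,[(130,-32),(122,-32),(91,32),(47,-8),(33,2),(23,1),(0,-1)]),
  (23,34,64,[(121,-32),(78,-4),(48,-8),(1,1)]),
  (22,34,4,[(65,2),(64,1),(47,-1),(8,4)]),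
  (22,59,64,[(134,-32),(125,-32),(65,-16),(52,32),(36,2),(26,1)]),
  (28,32,8,[(143,-2),(90,-2),(88,1),(87,-1),(82,-1),(80,-1)]),
  (54,62,32,[(32,-1)]),
  (55,62,32,[(33,-1),(0,1)]),
  (18,58,64,[(142,-32),(130,-32),(74,32),(73,-16),(59,32),(39,-2),(38,-1)])]

def cert3 : List (ℕ × ℕ × ℤ × List (ℕ × ℤ)) := [(52,61,2,[(124,1),(118,-1)]),
  (9,9,4,[(94,-1)]),
  (21,21,1,[(142,-1)]),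
  (3,21,64,[(71,32),(35,2),(34,-1),(0,-32)]),
  (21,55,64,[(144,-32),(72,-32),(69,-32),(36,-2),(35,1),(1,-32)]),
  (20,21,64,[(146,-32),(145,-32),(78,32),(77,-16),(73,32),(70,-32),(43,-2),(42,-1),(32,-1),(2,-32),(0,1)]),
  (59,59,128,[(136,-128),(13,-2),(0,1)]),
  (21,59,256,[(147,-128),(137,-128),(14,-2),(4,-128),(2,-4),(1,3),(0,-1)]),
  (21,38,128,[(153,-32),(32,-4),(2,1)]),
  (38,58,128,[(154,-32),(33,-4),(0,1)]),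
  (32,38,128,[(155,-32),(113,32),(110,16),(99,16),(52,8),(34,-4),(1,-1)]),
  (19,38,128,[(156,-32),(35,-4),(2,-1)]),
  (11,38,128,[(157,-32),(36,4),(3,-1),(0,-1)]),
  (59,61,256,[(112,128),(20,-2),(12,128),(7,1),(6,-1)]),
  (38,62,128,[(159,-32),(117,-32),(114,-16),(103,16),(38,4),(5,1),(2,1)]),
  (40,40,4,[(123,-1)]),
  (47,47,4,[(118,-1)]),
  (22,22,4,[(156,-4),(70,-1)]),
  (22,53,8,[(157,-4),(151,-4),(94,-4),(71,1),(0,-1)]),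
  (22,57,8,[(158,-4),(72,-1),(1,1)]),
  (0,22,8,[(164,-4),(159,-4),(143,4),(142,4),(74,-2),(73,-1),(2,-1),(0,1)]),
  (38,59,128,[(166,-32),(45,-4),(28,-2),(15,1),(12,1),(9,1),(0,8)]),
  (23,51,128,[(160,-64),(157,-64),(150,-64),(149,32),(141,32),(81,-32),(78,-32),(77,-16),(30,2),(16,1),(1,-8)]),
  (24,58,256,[(154,-128),(13,-1),(2,-8),(0,-1)]),
  (18,22,256,[(167,-128),(163,-128),(98,-64),(95,-128),(94,-64),(77,32),(71,16),(66,8),(63,4),(28,4),(24,-4),(16,1),(6,-32),(3,16),(1,2)]),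
  (58,58,256,[(156,-256),(15,-2),(4,-16),(0,1)]),
  (0,2,128,[(149,-64),(148,-32),(143,-64),(142,-32),(121,128),(80,16),(54,2),(35,-8),(21,2),(20,-1),(5,8)]),
  (2,54,256,[(122,-256),(73,-16),(0,1)]),
  (2,2,128,[(74,-16),(1,-1),(0,-1)]),
  (19,19,128,[(171,-128),(7,-1)]),
  (19,21,256,[(172,-128),(170,-128),(27,128),(25,4),(8,-1),(0,-1)]),
  (37,38,128,[(176,-32),(131,16),(120,16),(73,8),(19,1),(9,-1)]),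
  (49,51,128,[(169,-64),(167,-64),(153,-64),(151,32),(144,16),(111,-8),(91,32),(9,1)]),
  (2,14,256,[(143,-32),(79,-16),(75,8),(58,-4),(57,8),(51,4),(43,16),(12,-8),(4,-1)]),
  (11,14,256,[(135,-32),(60,-8),(59,4),(58,-8),(52,4),(21,-1),(13,16),(12,-1),(0,-1)]),
  (11,11,128,[(22,-1),(14,8),(13,-1)]),
  (2,11,256,[(46,16),(9,-1),(8,-1),(7,-1),(1,-1),(0,-1)]),
  (11,47,256,[(139,-32),(24,-1),(16,8),(15,-1),(2,1),(0,1)]),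
  (2,10,256,[(133,-256),(47,16),(9,-1)]),
  (19,33,256,[(108,128),(61,-8),(27,1),(17,-2),(9,-1)]),
  (33,58,256,[(100,128),(62,-8),(30,-1),(28,1),(19,-8),(18,-1),(17,-1),(16,1),(15,1),(0,-1)]),
  (53,59,256,[(174,-128),(171,-128),(98,128),(33,1)]),
  (53,58,512,[(175,-256),(173,-256),(102,256),(19,-2),(18,2),(17,1),(16,-1),(0,-2)]),
  (53,61,512,[(72,8),(29,-1),(24,64),(22,32),(1,-2)]),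
  (31,53,64,[(120,-32),(73,-1),(25,-8),(23,-4)]),
  (49,53,64,[(182,-32),(178,-32),(124,4),(74,1),(26,8),(24,4)]),
  (1,49,64,[(167,-32),(125,-4),(0,1)]),
  (49,50,64,[(184,-32),(183,-32),(126,4),(124,16),(109,-16),(108,16),(79,-2),(78,1),(1,1)]),
  (13,14,256,[(74,-8),(72,8),(27,-8),(14,1)]),
  (3,23,128,[(176,-32),(105,32),(104,16),(68,128),(57,-2),(43,-1),(28,8)])]

def cert4 : List (ℕ × ℕ × ℤ × List (ℕ × ℤ)) := [(3,3,128,[(0,-1)]),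
  (3,12,256,[(99,-16),(87,-4),(70,-256),(68,-4),(1,1),(0,-1)]),
  (3,59,256,[(109,128),(93,8),(83,4),(59,-2),(48,4),(46,1),(45,-1),(0,1)]),
  (3,9,256,[(72,256),(51,-32),(3,-1),(2,-1)]),
  (9,39,256,[(147,-32),(137,-16),(134,8),(0,1)]),
  (12,40,256,[(163,-32),(106,-16),(91,4),(72,4),(3,1)]),
  (15,40,4,[(205,-1)]),
  (26,26,1,[]),
  (27,27,1,[]),
  (63,63,1,[]),
  (17,37,1,[]),
  (37,57,1,[(0,1)]),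
  (37,55,2,[(0,-1)]),
  (36,57,1,[]),
  (22,36,256,[(135,-128),(134,-64),(68,4),(56,1),(44,-32),(43,16),(0,256)]),
  (16,36,512,[(98,-16),(0,-1)]),
  (36,62,512,[(101,-16),(99,-16),(77,-512),(68,-16),(67,16),(2,-512),(1,1),(0,1)]),
  (24,36,1024,[(100,-32),(2,-2),(1,2),(0,-1)]),
  (36,36,1024,[(101,-64),(1,-1),(0,1)]),
  (36,54,2048,[(102,-64),(5,-2048),(2,-1),(1,-1),(0,-1)]),
  (29,29,1024,[(115,-128),(112,-64),(3,1)]),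
  (27,29,2048,[(116,128),(113,64),(12,-1024),(4,-1),(0,-1)]),
  (21,29,2048,[(137,-1024),(104,-64),(103,32),(102,-32),(69,-1024),(66,-16),(5,-1),(1,-1)]),
  (34,34,2048,[(158,-256),(1,-1)]),
  (34,58,4096,[(80,-64),(68,-32),(51,16),(50,-16),(49,8),(48,-8),(2,1),(0,-1)]),
  (13,34,4096,[(89,4096),(0,1)]),
  (21,27,4096,[(141,2048),(73,-2048),(17,-2048),(4,-1)]),
  (27,49,4096,[(198,-2048),(189,512),(44,32),(31,64),(29,-64),(5,1),(0,1)]),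
  (27,39,4096,[(161,-256),(159,-256),(158,-128),(6,1),(1,1)]),
  (31,31,1024,[(12,-1)]),
  (24,62,2048,[(115,-64),(65,-8),(58,8),(13,-1)]),
  (62,62,1024,[(116,-64),(92,-2048),(66,-8),(59,8),(14,-1),(0,1)]),
  (56,62,2048,[(207,-512),(126,-256),(125,-128),(124,64),(117,-64),(113,32),(67,-8),(60,8),(15,-1),(1,-1)]),
  (33,33,2048,[(105,-128),(71,16),(61,-16),(1,1)]),
  (26,33,4096,[(106,128),(72,-16),(62,16),(26,-2048),(2,-1),(0,-1)]),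
  (33,56,4096,[(211,-2048),(210,1024),(191,512),(129,512),(128,512),(119,-128),(107,-128),(73,16),(63,-16),(3,1),(1,-1)]),
  (11,33,2048,[(108,-64),(74,8),(73,-8),(65,64),(64,-16),(50,-8),(49,-4),(46,8),(45,8),(4,1)]),
  (30,30,4096,[(174,-512),(2,-1)]),
  (30,55,8192,[(217,-8192),(175,512),(3,1),(0,-1)]),
  (10,30,8192,[(105,8192),(104,8192),(0,1)]),
  (18,26,8192,[(165,-4096),(164,4096),(137,-512),(132,-256),(130,-256),(32,-4096),(5,-1)]),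
  (26,39,8192,[(205,-1024),(172,-512),(171,-256),(36,-32),(6,1),(0,1)]),
  (25,60,4096,[(240,-1024),(205,512),(180,512),(7,1)]),
  (19,32,4096,[(162,-2048),(160,2048),(82,-16),(71,-32),(11,-1)]),
  (21,32,4096,[(162,-2048),(159,2048),(88,32),(83,-16),(12,-1),(0,1)]),
  (17,32,8192,[(0,-1)]),
  (28,61,2048,[(243,-512),(188,256),(182,256),(178,256),(24,1)]),
  (29,55,4096,[(142,-256),(139,-128),(30,2),(26,-2),(24,-1)]),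
  (20,29,4096,[(170,1024),(147,-512),(143,-256),(140,-384),(136,-128),(135,-64),(125,-64),(93,64),(92,-32),(31,2),(27,-2),(25,-1),(0,-1)]),
  (32,50,8192,[(177,-4096),(176,-2048),(161,-2048),(160,-2048),(157,4096),(131,256),(130,-128),(26,2),(4,-1),(3,1),(1,-2)])]

def cert5 : List (ℕ × ℕ × ℤ × List (ℕ × ℤ)) := [(31,36,2048,[(133,-64),(36,2048),(35,-4),(34,-4),(33,-1),(32,2)]),
  (31,52,2048,[(225,-1024),(199,-1024),(198,1024),(197,-1024),(59,8),(56,32),(21,-1),(0,1)]),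
  (22,31,4096,[(173,-2048),(155,512),(84,-512),(81,256),(0,-1)]),
  (16,31,4096,[(36,-2),(23,-2),(1,-1),(0,1)]),
  (18,31,4096,[(179,-2048),(178,1024),(151,-256),(146,-128),(143,64),(104,-64),(81,32),(79,-16),(37,-2),(3,-2),(2,-1),(1,-1),(0,1)]),
  (12,31,8192,[(156,-512),(122,128),(53,32),(38,-4),(4,4),(3,2),(2,-2),(0,1)]),
  (12,29,8192,[(157,-512),(154,-512),(151,-512),(148,-256),(142,-128),(39,4),(35,-4),(33,-2),(8,2),(6,1),(0,1)]),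
  (6,12,8192,[(143,128),(1,1)]),
  (12,46,8192,[(144,128),(2,-1)]),
  (32,32,8192,[(112,-1024),(98,-64),(37,4),(27,-4),(2,-1)]),
  (23,32,16384,[(238,-8192),(237,4096),(166,-4096),(113,-1024),(99,-64),(89,-1024),(38,4),(28,-4),(15,-2),(14,-2),(3,1),(0,1)]),
  (28,45,16384,[(258,-4096),(205,-4096),(203,4096),(202,-4096),(0,1)]),
  (25,40,16384,[(260,-4096),(227,-4096),(225,4096),(64,256),(1,-1)]),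
  (28,47,16384,[(260,-4096),(204,-2048),(197,-2048),(195,2048),(2,1)]),
  (52,59,32768,[(248,-16384),(244,-16384),(232,-16384),(204,8192),(121,256),(108,-128),(107,-128),(66,-256),(3,1)]),
  (4,25,32768,[(263,-8192),(67,256),(4,-1),(0,1)]),
  (25,44,32768,[(264,-8192),(68,256),(5,-1),(1,-1)]),
  (5,25,32768,[(265,-8192),(69,256),(6,-1),(2,1)]),
  (25,42,32768,[(266,-8192),(70,256),(7,-1),(3,-1)]),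
  (27,50,32768,[(197,-16384),(183,16384),(41,-4),(8,-1)]),
  (27,47,16384,[(103,-2048),(82,-64),(48,4),(43,-4),(42,4),(9,1)]),
  (4,39,65536,[(235,-8192),(201,2048),(42,-16),(29,-8),(5,-1)]),
  (1,27,32768,[(143,-16384),(50,8),(45,8),(44,-4),(11,-1),(2,1)]),
  (39,43,32768,[(206,-2048),(203,1024),(68,128),(12,-1)]),
  (11,32,16384,[(113,-64),(111,-64),(103,512),(102,-64),(89,64),(87,32),(42,-4),(30,-4),(29,4),(14,-2),(13,1)]),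
  (6,11,16384,[(88,32),(0,-1)]),
  (11,41,16384,[(89,32),(1,-1)]),
  (30,44,65536,[(214,-4096),(143,65536),(42,-8),(39,-8),(10,-1)]),
  (39,44,65536,[(242,-8192),(208,2048),(49,16),(36,8),(11,-1)]),
  (4,4,32768,[(13,-1)]),
  (4,15,4,[(279,-1)]),
  (43,43,16384,[(20,-1)]),
  (43,51,32768,[(267,16384),(252,-16384),(21,-1),(0,-1)]),
  (43,60,32768,[(146,32768),(9,-1),(1,-1),(0,-1)]),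
  (26,60,65536,[(76,-32768),(41,-8),(0,-1)]),
  (60,60,32768,[(42,-8),(1,-1)]),
  (44,44,32768,[(19,-1)]),
  (44,52,65536,[(271,32768),(255,-32768),(20,-1),(0,-1)]),
  (44,61,65536,[(137,-32768),(124,256),(9,-1),(1,-1),(0,-1)]),
  (61,63,512,[(125,1),(95,1),(79,-256)]),
  (61,61,65536,[(43,-32),(1,-1)]),
  (40,44,65536,[(85,-256),(28,-2),(24,-1),(12,1),(3,1)]),
  (32,43,65536,[(145,-4096),(70,16),(48,-16),(47,16),(35,-4),(32,-4),(31,-2),(18,2),(9,1)]),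
  (4,43,65536,[(21,-1),(19,-2),(11,-2),(10,-1),(0,-1)]),
  (26,40,8192,[(128,-1024),(88,32),(59,1),(53,-1)]),
  (26,53,16384,[(221,-8192),(103,64),(0,1)]),
  (4,26,65536,[(88,-32768),(30,-1),(1,-4),(0,4)]),
  (26,31,16384,[(67,-8),(62,2),(56,-2),(46,-8),(43,4),(42,-4),(2,-1)]),
  (4,60,65536,[(171,-1024),(160,16384),(125,512),(55,-8),(32,-1),(14,-3),(13,-1),(12,2),(1,-1)]),
  (42,44,65536,[(32,-1),(30,-1),(12,-1)])]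

def cert6 : List (ℕ × ℕ × ℤ × List (ℕ × ℤ)) := [(24,37,4096,[(118,-16),(68,-1)]),
  (23,37,4096,[(278,-1024),(207,-1024),(206,-512),(159,-64),(145,-32),(119,-16),(69,-1),(0,-1)]),
  (37,37,2048,[(120,-16),(90,-2048),(89,-2048),(70,-1),(1,-1),(0,-1)]),
  (39,63,8192,[(234,-512),(98,32),(74,2),(61,1)]),
  (60,63,65536,[(177,1024),(19,1),(18,-3),(5,1),(0,-8)]),
  (43,63,65536,[(22,1),(12,1),(11,1),(8,-1),(0,-1)]),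
  (15,63,4,[(305,-1)]),
  (45,63,65536,[(2,1)]),
  (47,63,65536,[(141,-8192),(120,256),(44,2),(4,8),(2,-1)]),
  (10,10,1,[]),
  (10,17,2,[(0,-1)]),
  (10,41,2,[(1,-1)]),
  (10,43,65536,[(123,256),(29,1),(19,-1),(18,-1),(15,1),(2,-32768)]),
  (4,10,65536,[(33,-1),(16,1),(2,16384)]),
  (10,11,65536,[(127,128),(39,-4),(3,16384),(0,-1)]),
  (13,13,1,[]),
  (13,22,8,[(305,4),(219,-1),(148,-1),(0,-4)]),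
  (12,13,8192,[(203,128),(61,-1),(0,512)]),
  (13,36,8192,[(104,8192),(100,8),(98,4),(2,-4096),(1,-512),(0,1)]),
  (8,13,8192,[(2,512),(1,1)]),
  (3,13,16384,[(166,256),(120,-64),(119,-64),(2,-2),(1,1)]),
  (13,46,2,[(5,-1)]),
  (5,10,65536,[(11,16384),(8,-1)]),
  (26,46,16384,[(28,-1),(25,-1)]),
  (33,46,16384,[(134,64),(92,4),(90,-4),(0,-1)]),
  (31,46,32768,[(73,8),(72,-8),(71,8),(0,1)]),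
  (41,43,65536,[(43,1),(33,-1)]),
  (44,45,65536,[(49,-1),(48,-1)]),
  (9,13,8192,[(11,512),(10,-1),(9,1)]),
  (9,15,4,[(328,-1)]),
  (7,9,256,[(273,-32),(126,1)]),
  (9,45,32768,[(274,-4096),(179,-4096),(69,-1)]),
  (39,41,4096,[(263,-256),(127,16),(103,-1)]),
  (41,60,65536,[(206,-1024),(195,16384),(160,512),(49,-2),(6,-1),(0,-16)]),
  (8,34,4096,[(269,-256),(198,4096),(112,-1),(110,-1)]),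
  (13,42,16384,[(19,-8192),(17,2),(16,-1),(14,1)]),
  (34,42,4096,[(192,64),(180,32),(114,-1),(112,-1)]),
  (42,43,65536,[(63,-2),(55,-2),(54,-1),(44,1),(1,4),(0,-16)]),
  (36,42,4096,[(123,8),(122,-8),(121,2),(120,6),(119,-2),(1,1)]),
  (7,34,4096,[(274,-256),(209,-2048),(195,64),(183,32),(117,-2),(114,1)]),
  (4,7,65536,[(74,-1),(68,-1),(0,16)]),
  (1,25,32768,[(339,-8192),(306,8192),(304,-4096),(279,-4096),(143,-256),(106,-8),(80,1),(76,1)]),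
  (6,6,1,[]),
  (8,8,1,[]),
  (13,44,65536,[(66,1),(57,-1),(52,1),(28,-32768),(26,-8),(25,4),(24,8),(23,4),(9,-16),(0,-32768)]),
  (11,15,256,[(344,-64),(158,1)]),
  (15,42,65536,[(345,-16384),(8,-1),(0,256)]),
  (12,15,131072,[(346,-32768),(233,4096),(0,1)]),
  (15,45,131072,[(347,-32768),(1,1),(0,1)]),
  (8,15,131072,[(348,-32768),(2,-1),(1,1)])]

def cert7 : List (ℕ × ℕ × ℤ × List (ℕ × ℤ)) := [(5,15,256,[(349,-64),(4,1)]),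
  (10,45,262144,[(162,1024),(41,-131072),(2,-1)]),
  (37,45,262144,[(140,-131072),(139,-131072),(50,-64),(49,-64),(24,4),(3,-1),(0,-1)]),
  (41,45,262144,[(26,4),(19,4),(4,-1),(1,1),(0,1)]),
  (1,28,16384,[(351,-4096),(298,4096),(296,-2048),(295,2048),(290,-2048),(288,2048),(286,-2048),(132,-8),(93,-1)]),
  (5,5,32768,[(87,-1),(4,-128)]),
  (6,8,4096,[(21,1),(12,-2048)]),
  (6,15,4,[(356,-1)]),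
  (5,7,65536,[(90,-1),(18,16),(7,-128)]),
  (5,39,65536,[(323,-8192),(289,2048),(130,-16),(91,-1),(8,-128),(0,-1)]),
  (5,30,131072,[(297,-8192),(226,131072),(225,131072),(125,-16),(122,-16),(92,-2),(4,-2),(0,1)]),
  (5,45,262144,[(33,-4),(10,-512),(8,1),(5,-4),(2,-4),(1,-2),(0,-2)]),
  (5,6,131072,[(19,-65536),(11,-256),(2,-1),(1,1)]),
  (6,39,131072,[(294,-8192),(158,-512),(134,-32),(121,-16),(6,-32),(0,-1)]),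
  (4,6,131072,[(84,-2),(67,2),(23,2),(21,-65536),(1,-1)]),
  (8,33,262144,[(249,8192),(129,64),(21,-131072),(15,1)]),
  (8,39,262144,[(299,-16384),(296,8192),(161,-1024),(124,-32),(16,-1),(0,1)]),
  (8,42,262144,[(32,-64),(31,-16),(30,-64),(28,64),(17,-1),(1,1),(0,-1)]),
  (42,42,262144,[(99,-8),(30,-4),(0,-1)]),
  (5,44,524288,[(102,-8),(101,-8),(82,8),(81,8),(69,8),(31,-4),(18,-1024),(13,-8),(1,1),(0,-1)]),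
  (11,43,524288,[(185,2048),(184,-2048),(183,1024),(96,16),(95,32),(94,32),(88,-16),(87,8),(77,-8),(57,8),(47,8),(29,8),(27,-262144),(19,-1024),(10,4),(9,-4),(7,4),(6,4),(0,1)]),
  (46,61,65536,[(207,128),(177,-128),(82,-1),(47,4),(46,2),(45,2)]),
  (46,46,65536,[(0,-1)]),
  (46,63,262144,[(163,-131072),(65,4),(24,-1),(21,1),(1,-2),(0,-2)]),
  (42,46,262144,[(50,-16),(38,-16),(35,64),(6,-1),(5,-1),(2,-2),(1,-2),(0,-1)]),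
  (1,26,65536,[(140,8),(134,8),(80,4),(77,4),(76,-1),(33,-1)]),
  (1,4,65536,[(247,-32768),(110,-1),(104,-1),(96,-1),(95,16384),(79,1),(30,256),(29,-1),(21,2),(0,-1)]),
  (7,39,16,[(341,-2),(310,-1),(308,1),(307,1),(247,8)]),
  (7,8,262144,[(28,-1),(12,1),(0,-8192)]),
  (9,46,262144,[(55,16),(54,8),(53,8),(50,-32),(48,1024),(7,-2),(6,-2),(5,1),(1,-8192),(0,-1)]),
  (7,42,524288,[(111,-8),(43,-128),(42,-4),(40,-128),(12,1),(11,1),(2,-32768)]),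
  (0,1,1048576,[(354,-524288),(348,524288),(347,524288),(252,-524288),(39,16),(26,32),(0,-1)]),
  (1,7,1048576,[(42,256),(40,-16),(27,-32),(4,32768),(3,-4),(1,3),(0,1)]),
  (31,40,32768,[(341,-4096),(166,-16),(153,-16),(131,8),(130,8),(120,-1)]),
  (40,41,65536,[(218,-8192),(121,2),(51,-16),(50,-1),(0,2)]),
  (7,44,524288,[(118,-8),(106,-8),(93,8),(45,-128),(7,-32768),(5,-2),(4,-1),(1,-16)]),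
  (41,41,262144,[(32,-1),(24,1),(1,-4)]),
  (5,41,524288,[(60,8),(54,-128),(36,-1024),(33,-1),(27,-4),(26,-4),(25,1),(17,1),(2,-4),(0,-1)]),
  (8,11,524288,[(203,2048),(202,-2048),(201,1024),(113,32),(111,32),(61,-8),(55,128),(53,128),(43,8),(38,-2),(34,1),(26,-1),(22,-2),(21,2),(4,-16),(3,-4),(2,-1),(1,-1)]),
  (46,47,1048576,[(222,-131072),(201,4096),(125,32),(64,-32),(63,32),(17,-8),(16,-8),(8,1)]),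
  (33,47,1048576,[(342,-131072),(274,32768),(262,-32768),(228,4096),(223,-131072),(218,-4096),(158,256),(156,-256),(126,32),(9,1),(0,-1)]),
  (5,27,1048576,[(182,-524288),(169,-256),(164,256),(120,64),(35,-16),(32,-16),(31,-16),(0,-1)]),
  (10,15,1048576,[(391,-262144),(81,524288),(3,-1)]),
  (15,39,1048576,[(392,-262144),(323,65536),(47,4096),(46,-8),(45,8),(4,1),(0,1)]),
  (13,15,1048576,[(393,-262144),(77,131072),(5,1),(1,-1),(0,1)]),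
  (9,47,2097152,[(338,-262144),(191,-8192),(131,-64),(65,-524288),(64,8192),(48,-16),(47,-16),(17,-65536),(16,-8),(15,-8),(14,-2),(6,-4),(5,-2),(3,-2),(1,2),(0,3)]),
  (45,45,4194304,[(134,-256),(47,-32),(34,-16),(1,-2),(0,-1)]),
  (5,40,4194304,[(191,-16384),(134,-128),(129,-64),(46,-8192),(38,64),(13,128),(3,4),(1,-1)])]

def cert : List (ℕ × ℕ × ℤ × List (ℕ × ℤ)) :=
  cert0 ++ cert1 ++ cert2 ++ cert3 ++ cert4 ++ cert5 ++ cert6 ++ cert7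

def Z0 : ℕ := 163982953556448625628943447055633210141626150655550032575661820851050604661113412856555926197229277458799556307319548542976

end Pool.Agent.H.MP_79ad04_gt
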