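import Pool.Agent.H.MP_79ad04_gt.Gen

set_option autoImplicit false

namespace Pool.Agent.H.MP_79ad04_gt

open Finset
open scoped RealInnerProductSpace

variable {n N : ℕ}

/-- Plane rotation in the coordinates `a`, `b`. -/
noncomputable def rot (a b : Fin n) (c s : ℝ) : E n →L[ℝ] E n :=
  ContinuousLinearMap.id ℝ (E n) +
    ((c - 1) • EuclideanSpace.proj a - s • EuclideanSpace.proj b : E n →L[ℝ] ℝ).smulRight
      (EuclideanSpace.single a (1 : ℝ)) +
    (s • EuclideanSpace.proj a + (c - 1) • EuclideanSpace.proj b : E n →L[ℝ] ℝ).smulRight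
      (EuclideanSpace.single b (1 : ℝ))

lemma inner_rot (a b : Fin n) (c s : ℝ) (w z : E n) :
    ⟪w, rot a b c s z⟫ = ⟪w, z⟫ + ((c - 1) * z a - s * z b) * w a +
      (s * z a + (c - 1) * z b) * w b := by
  simp [rot, inner_add_right, inner_smul_right, EuclideanSpace.inner_single_right]

lemma rot_apply (a b : Fin n) (c s : ℝ) (z : E n) (k : Fin n) :
    rot a b c s z k = z k + ((c - 1) * z a - s * z b) * (if k = a then 1 else 0) +
      (s * z a + (c - 1) * z b) * (if k = b then 1 else 0) := by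
  simp [rot, Pi.single_apply]

lemma norm_rot {a b : Fin n} (hab : a ≠ b) {c s : ℝ} (h : c ^ 2 + s ^ 2 = 1) (z : E n) :
    ‖rot a b c s z‖ = ‖z‖ := by
  have : ‖rot a b c s z‖ ^ 2 = ‖z‖ ^ 2 := by
    rw [← real_inner_self_eq_norm_sq, ← real_inner_self_eq_norm_sq]
    rw [inner_rot a b c s (rot a b c s z) z, real_inner_comm z, inner_rot, rot_apply, rot_apply]
    simp only [if_true, hab, hab.symm, if_false]
    linear_combination (z a ^ 2 + z b ^ 2) * h
  exact (pow_left_inj₀ (norm_nonneg _) (norm_nonneg _) two_ne_zero).1 this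

lemma exists_gauge (x y : Fin N → E n) :
    ∃ g : E n ≃ₗᵢ[ℝ] E n, gauge x (fun i => g.symm (y i)) ∧
      ∑ i, ⟪y i, x i⟫ ≤ ∑ i, ⟪g.symm (y i), x i⟫ := by
  set O : Set (E n →L[ℝ] E n) := {g | ∀ z, ‖g z‖ = ‖z‖} with hO
  have hcl : IsClosed O := by
    simp only [hO, Set.setOf_forall]
    exact isClosed_iInter fun z => isClosed_eq (by fun_prop) (by fun_prop)
  have hbd : Bornology.IsBounded O := by
    refine (Metric.isBounded_closedBall (x := (0 : E n →L[ℝ] E n)) (r := 1)).subset ?_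
    intro g hg
    rw [mem_closedBall_zero_iff]
    exact ContinuousLinearMap.opNorm_le_bound _ zero_le_one fun z => by rw [hg z, one_mul]
  have hcp : IsCompact O := Metric.isCompact_of_isClosed_isBounded hcl hbd
  have hid : ContinuousLinearMap.id ℝ (E n) ∈ O := fun z => rfl
  obtain ⟨g0, hg0, hmax⟩ := hcp.exists_isMaxOn ⟨_, hid⟩
    (f := fun g : E n →L[ℝ] E n => ∑ i, ⟪y i, g (x i)⟫) (by fun_prop)
  let li : E n →ₗᵢ[ℝ] E n := ⟨g0.toLinearMap, hg0⟩
  let g : E n ≃ₗᵢ[ℝ] E n := li.toLinearIsometryEquiv rfl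
  have hg : ∀ z, g z = g0 z := fun z => rfl
  have hflip : ∀ w z, ⟪w, g0 z⟫ = ⟪g.symm w, z⟫ := by
    intro w z
    rw [← hg, ← g.inner_map_map (g.symm w) z, g.apply_symm_apply]
  refine ⟨g, fun a b => ?_, ?_⟩
  · by_cases hab : a = b
    · rw [hab]
    set S := ∑ i, (g.symm (y i) a * x i a + g.symm (y i) b * x i b) with hS
    set D := ∑ i, g.symm (y i) b * x i a - ∑ i, g.symm (y i) a * x i b with hD
    have h1 : ∀ c s : ℝ, c ^ 2 + s ^ 2 = 1 → (c - 1) * S + s * D ≤ 0 := by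
      intro c s h
      have hm : g0 ∘L rot a b c s ∈ O := fun z => by
        rw [ContinuousLinearMap.comp_apply, hg0, norm_rot hab h]
      have := hmax hm
      simp only [Set.mem_setOf_eq, ContinuousLinearMap.comp_apply, hflip, inner_rot,
        Finset.sum_add_distrib] at this
      have e : (c - 1) * S + s * D =
          ∑ i, ((c - 1) * x i a - s * x i b) * g.symm (y i) a +
            ∑ i, (s * x i a + (c - 1) * x i b) * g.symm (y i) b := by
        rw [hS, hD, mul_sub, Finset.mul_sum, Finset.mul_sum, Finset.mul_sum,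
          ← Finset.sum_sub_distrib, ← Finset.sum_add_distrib, ← Finset.sum_add_distrib]
        exact Finset.sum_congr rfl fun i _ => by ring
      linarith
    have h2 : ∀ t : ℝ, t * D ≤ t ^ 2 * S := by
      intro t
      have hp : 0 < 1 + t ^ 2 := by positivity
      have := h1 ((1 - t ^ 2) / (1 + t ^ 2)) (2 * t / (1 + t ^ 2)) (by field_simp; ring)
      have e : ((1 - t ^ 2) / (1 + t ^ 2) - 1) * S + 2 * t / (1 + t ^ 2) * D =
          2 * (t * D - t ^ 2 * S) / (1 + t ^ 2) := by field_simp; ring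
      rw [e, div_nonpos_iff] at this
      rcases this with h | h <;> linarith [h.1, h.2]
    have hp : 0 < |S| + 1 := by positivity
    have h3 := h2 (D / (|S| + 1))
    have e1 : D / (|S| + 1) * D = D ^ 2 * (|S| + 1) / (|S| + 1) ^ 2 := by field_simp
    have e2 : (D / (|S| + 1)) ^ 2 * S = D ^ 2 * S / (|S| + 1) ^ 2 := by field_simp
    rw [e1, e2, div_le_div_iff_of_pos_right (by positivity)] at h3
    have h4 : D ^ 2 * S ≤ D ^ 2 * |S| := mul_le_mul_of_nonneg_left (le_abs_self S) (sq_nonneg D)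
    have h5 : D ^ 2 ≤ 0 := by nlinarith
    have h6 : D = 0 := by nlinarith [sq_nonneg D]
    show ∑ i, g.symm (y i) a * x i b = ∑ i, g.symm (y i) b * x i a
    linarith
  · have := hmax hid
    simpa [hflip] using this

theorem jam {W : Fin N → Fin N → ℝ} {lam : Fin N → ℝ} {x F : Fin N → E n}
    (hx : ∀ i, ‖x i‖ = 1)
    (hW : ∀ i j, 0 ≤ W i j) (hWs : ∀ i j, W i j = W j i)
    (hst : ∀ i, ∑ j, W i j • x j = lam i • x i)
    (hK : ∀ u : Fin N → E n, (∀ i, ⟪x i, u i⟫ = 0) →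
      (∀ i j, W i j ≠ 0 → ⟪x i, u j⟫ + ⟪u i, x j⟫ = 0) →
      ∃ A : E n →ₗ[ℝ] E n, (∀ u w, ⟪A u, w⟫ = - ⟪u, A w⟫) ∧ ∃ t : ℝ,
        ∀ i, u i = A (x i) + t • F i)
    (hQ : 0 < B W lam F F) :
    ∃ ε : ℝ, 0 < ε ∧ ∀ y : Fin N → E n, (∀ i, ‖y i‖ = 1) → (∀ i, dist (y i) (x i) < ε) →
      (∀ i j, W i j ≠ 0 → dist (x i) (x j) ≤ dist (y i) (y j)) →
      ∃ g : E n ≃ₗᵢ[ℝ] E n, ∀ i, y i = g (x i) := by
  obtain ⟨r0, hr0, hr⟩ := isolate hW hWs hst hK hQ
  refine ⟨r0 / (N + 1), by positivity, fun y hy hd hc => ?_⟩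
  obtain ⟨g, hg, hle⟩ := exists_gauge x y
  set y' : Fin N → E n := fun i => g.symm (y i) with hy'
  have hn : ∀ i, ‖y' i‖ = 1 := fun i => by simp [hy', hy]
  have hxx : ∀ i, ⟪x i, x i⟫ = 1 := fun i => by rw [real_inner_self_eq_norm_sq, hx]; norm_num
  have hsq : ∀ p q : E n, ‖p‖ = 1 → ‖q‖ = 1 → ‖p - q‖ ^ 2 = 2 - 2 * ⟪p, q⟫ := by
    intro p q hp hq
    rw [norm_sub_sq_real, hp, hq]
    ring
  have := hr (fun i => y' i - x i) (fun i => ?_) (fun i j hij => ?_) (fun a b => ?_) ?_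
  · refine ⟨g, fun i => ?_⟩
    have h := sub_eq_zero.1 (this i)
    rw [← h]
    simp [hy']
  · rw [hsq _ _ (hn i) (hx i), inner_sub_right, hxx, real_inner_comm]
    ring
  · have h := hc i j hij
    have h' : dist (y i) (y j) = dist (y' i) (y' j) := by simp [hy']
    rw [h', dist_eq_norm, dist_eq_norm] at h
    have h2 := pow_le_pow_left₀ (norm_nonneg _) h 2
    rw [hsq _ _ (hx i) (hx j), hsq _ _ (hn i) (hn j)] at h2
    simp only [inner_sub_left, inner_sub_right]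
    linarith
  · have h := hg a b
    simp only [WithLp.ofLp_sub, Pi.sub_apply, sub_mul, Finset.sum_sub_distrib]
    have e : ∑ i, x i a * x i b = ∑ i, x i b * x i a :=
      Finset.sum_congr rfl fun i _ => mul_comm _ _
    rw [e]
    exact congrArg (· - _) h
  · have e1 : ∑ i, ‖y' i - x i‖ ^ 2 = ∑ i, (2 - 2 * ⟪y' i, x i⟫) :=
      Finset.sum_congr rfl fun i _ => hsq _ _ (hn i) (hx i)
    have e2 : ∑ i, ‖y i - x i‖ ^ 2 = ∑ i, (2 - 2 * ⟪y i, x i⟫) :=
      Finset.sum_congr rfl fun i _ => hsq _ _ (hy i) (hx i)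
    simp only [Finset.sum_sub_distrib, ← Finset.mul_sum] at e1 e2
    have e3 : ∑ i, ‖y i - x i‖ ^ 2 ≤ ∑ _i : Fin N, (r0 / (N + 1)) ^ 2 :=
      Finset.sum_le_sum fun i _ => pow_le_pow_left₀ (norm_nonneg _)
        (by rw [← dist_eq_norm]; exact (hd i).le) 2
    simp only [Finset.sum_const, Finset.card_univ, Fintype.card_fin, nsmul_eq_mul] at e3
    have e4 : (N : ℝ) * (r0 / (N + 1)) ^ 2 < r0 ^ 2 := by
      have hN : (0 : ℝ) ≤ N := Nat.cast_nonneg N
      rw [div_pow, ← mul_div_assoc, div_lt_iff₀ (by positivity)]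
      have h0 : 0 < r0 ^ 2 := by positivity
      have h1 : (N : ℝ) < (N + 1) ^ 2 := by nlinarith
      nlinarith [mul_lt_mul_of_pos_left h1 h0]
    have hle' : ∑ i, ⟪y i, x i⟫ ≤ ∑ i, ⟪y' i, x i⟫ := hle
    linarith

end Pool.Agent.H.MP_79ad04_gt
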