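import Mathlib

set_option autoImplicit false

namespace Pool.Agent.H.MP_79ad04_gt

open Finset
open scoped RealInnerProductSpace

abbrev E (n : ℕ) := EuclideanSpace ℝ (Fin n)

variable {n N : ℕ}

/-- The bilinear form of a stress. -/
noncomputable def B (W : Fin N → Fin N → ℝ) (lam : Fin N → ℝ) (u w : Fin N → E n) : ℝ :=
  ∑ i, ∑ j, W i j * ⟪u i, w j⟫ - ∑ i, lam i * ⟪u i, w i⟫

def gauge (x u : Fin N → E n) : Prop :=
  ∀ a b, ∑ i, u i a * x i b = ∑ i, u i b * x i a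

lemma sum_right {W : Fin N → Fin N → ℝ} {lam : Fin N → ℝ} {x : Fin N → E n}
    (hst : ∀ i, ∑ j, W i j • x j = lam i • x i) (u : Fin N → E n) :
    ∑ i, ∑ j, W i j * ⟪u i, x j⟫ = ∑ i, lam i * ⟪u i, x i⟫ := by
  refine Finset.sum_congr rfl fun i _ => ?_
  have := congrArg (fun z => ⟪u i, z⟫) (hst i)
  simpa [inner_sum, inner_smul_right] using this

lemma B_symm {W : Fin N → Fin N → ℝ} (lam : Fin N → ℝ) (hWs : ∀ i j, W i j = W j i)
    (u w : Fin N → E n) : B W lam u w = B W lam w u := by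
  unfold B
  rw [Finset.sum_comm]
  congr 1
  · refine Finset.sum_congr rfl fun i _ => Finset.sum_congr rfl fun j _ => ?_
    rw [hWs j i, real_inner_comm]
  · refine Finset.sum_congr rfl fun i _ => ?_
    rw [real_inner_comm]

lemma B_lin {W : Fin N → Fin N → ℝ} {lam : Fin N → ℝ} {x : Fin N → E n}
    (hst : ∀ i, ∑ j, W i j • x j = lam i • x i) (A : E n →ₗ[ℝ] E n) (u : Fin N → E n) :
    B W lam u (fun i => A (x i)) = 0 := by
  unfold B
  rw [sub_eq_zero]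
  apply sum_right (x := fun i => A (x i))
  intro i
  have := congrArg A (hst i)
  simpa [map_sum, map_smul] using this

lemma B_add_right (W : Fin N → Fin N → ℝ) (lam : Fin N → ℝ) (u w w' : Fin N → E n) (t : ℝ) :
    B W lam u (fun i => w i + t • w' i) = B W lam u w + t * B W lam u w' := by
  unfold B
  simp only [inner_add_right, inner_smul_right, mul_add, Finset.sum_add_distrib, mul_sub,
    Finset.mul_sum]
  have h1 : ∀ i j, W i j * (t * ⟪u i, w' j⟫) = t * (W i j * ⟪u i, w' j⟫) := fun i j => by ring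
  have h2 : ∀ i, lam i * (t * ⟪u i, w' i⟫) = t * (lam i * ⟪u i, w' i⟫) := fun i => by ring
  simp only [h1, h2]
  ring

lemma B_flex {W : Fin N → Fin N → ℝ} {lam : Fin N → ℝ} {x : Fin N → E n}
    (hWs : ∀ i j, W i j = W j i)
    (hst : ∀ i, ∑ j, W i j • x j = lam i • x i) (A : E n →ₗ[ℝ] E n) (F : Fin N → E n) (t : ℝ) :
    B W lam (fun i => A (x i) + t • F i) (fun i => A (x i) + t • F i) = t ^ 2 * B W lam F F := by
  rw [B_add_right, B_lin hst, B_symm lam hWs _ F, B_add_right, B_lin hst]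
  ring

lemma stress_id {W : Fin N → Fin N → ℝ} {lam : Fin N → ℝ} {x : Fin N → E n}
    (hWs : ∀ i j, W i j = W j i)
    (hst : ∀ i, ∑ j, W i j • x j = lam i • x i) (u : Fin N → E n) :
    ∑ i, ∑ j, W i j * (⟪x i, u j⟫ + ⟪u i, x j⟫) = 2 * ∑ i, lam i * ⟪x i, u i⟫ := by
  have h1 := sum_right hst u
  have h2 : ∑ i, ∑ j, W i j * ⟪x i, u j⟫ = ∑ i, ∑ j, W i j * ⟪u i, x j⟫ := by
    rw [Finset.sum_comm]
    refine Finset.sum_congr rfl fun i _ => Finset.sum_congr rfl fun j _ => ?_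
    rw [hWs j i, real_inner_comm]
  have h3 : ∑ i, lam i * ⟪x i, u i⟫ = ∑ i, lam i * ⟪u i, x i⟫ :=
    Finset.sum_congr rfl fun i _ => by rw [real_inner_comm]
  simp only [mul_add, Finset.sum_add_distrib]
  rw [h2, h1, h3]
  ring

lemma inner_coord (u w : E n) : ⟪u, w⟫ = ∑ a, u a * w a := by
  simp [PiLp.inner_apply, mul_comm]

lemma skew_gauge {x : Fin N → E n} (A : E n →ₗ[ℝ] E n)
    (hA : ∀ u w, ⟪A u, w⟫ = - ⟪u, A w⟫) (hg : gauge x (fun i => A (x i))) :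
    ∑ i, ‖A (x i)‖ ^ 2 = 0 := by
  set e : Fin n → E n := fun a => EuclideanSpace.single a (1 : ℝ) with he
  have hdec : ∀ z : E n, A z = ∑ b, z b • A (e b) := by
    intro z
    have : z = ∑ b, z b • e b := by
      ext c
      simp [he, Finset.sum_apply, Pi.single_apply]
    conv_lhs => rw [this]
    simp [map_sum, map_smul]
  have hM : ∀ a b, A (e b) a = - A (e a) b := by
    intro a b
    have := hA (e b) (e a)
    simpa [he, EuclideanSpace.inner_single_left, EuclideanSpace.inner_single_right] using this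
  set G : Fin n → Fin n → ℝ := fun a b => ∑ i, A (x i) a * x i b with hG
  have hS : ∑ i, ‖A (x i)‖ ^ 2 = ∑ a, ∑ b, A (e b) a * G a b := by
    have : ∀ i, ‖A (x i)‖ ^ 2 = ∑ a, ∑ b, A (e b) a * (A (x i) a * x i b) := by
      intro i
      rw [← real_inner_self_eq_norm_sq, inner_coord]
      refine Finset.sum_congr rfl fun a _ => ?_
      have h := congrArg (fun z : E n => z a) (hdec (x i))
      simp only [WithLp.ofLp_sum, Finset.sum_apply, WithLp.ofLp_smul, Pi.smul_apply,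
        smul_eq_mul] at h
      conv_lhs => rw [show A (x i) a * A (x i) a = A (x i) a * ∑ b, x i b * A (e b) a from by
        rw [← h]]
      rw [Finset.mul_sum]
      exact Finset.sum_congr rfl fun b _ => by ring
    simp only [this, hG, Finset.mul_sum]
    rw [Finset.sum_comm]
    exact Finset.sum_congr rfl fun a _ => Finset.sum_comm
  have hneg : ∑ a, ∑ b, A (e b) a * G a b = - ∑ a, ∑ b, A (e b) a * G a b := by
    conv_lhs => rw [Finset.sum_comm]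
    rw [← Finset.sum_neg_distrib]
    refine Finset.sum_congr rfl fun a _ => ?_
    rw [← Finset.sum_neg_distrib]
    refine Finset.sum_congr rfl fun b _ => ?_
    have : G b a = G a b := hg b a
    rw [hM b a, this]
    ring
  linarith

/-- The local isolation step. -/
lemma isolate {W : Fin N → Fin N → ℝ} {lam : Fin N → ℝ} {x F : Fin N → E n}
    (hW : ∀ i j, 0 ≤ W i j) (hWs : ∀ i j, W i j = W j i)
    (hst : ∀ i, ∑ j, W i j • x j = lam i • x i)
    (hK : ∀ u : Fin N → E n, (∀ i, ⟪x i, u i⟫ = 0) →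
      (∀ i j, W i j ≠ 0 → ⟪x i, u j⟫ + ⟪u i, x j⟫ = 0) →
      ∃ A : E n →ₗ[ℝ] E n, (∀ u w, ⟪A u, w⟫ = - ⟪u, A w⟫) ∧ ∃ t : ℝ,
        ∀ i, u i = A (x i) + t • F i)
    (hQ : 0 < B W lam F F) :
    ∃ r0 : ℝ, 0 < r0 ∧ ∀ δ : Fin N → E n, (∀ i, 2 * ⟪x i, δ i⟫ + ‖δ i‖ ^ 2 = 0) →
      (∀ i j, W i j ≠ 0 → ⟪x i, δ j⟫ + ⟪δ i, x j⟫ + ⟪δ i, δ j⟫ ≤ 0) → gauge x δ →
      ∑ i, ‖δ i‖ ^ 2 < r0 ^ 2 → ∀ i, δ i = 0 := by
  set K : Set (ℝ × (Fin N → E n)) := {p | (0 ≤ p.1 ∧ p.1 ≤ 1) ∧ ∑ i, ‖p.2 i‖ ^ 2 = 1 ∧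
    (∀ i, 2 * ⟪x i, p.2 i⟫ + p.1 * ‖p.2 i‖ ^ 2 = 0) ∧
    (∀ i j, W i j * (⟪x i, p.2 j⟫ + ⟪p.2 i, x j⟫ + p.1 * ⟪p.2 i, p.2 j⟫) ≤ 0) ∧
    gauge x p.2 ∧ B W lam p.2 p.2 ≤ 0} with hKdef
  have hcl : IsClosed K := by
    simp only [hKdef, gauge, B, Set.setOf_and, Set.setOf_forall]
    refine IsClosed.inter (IsClosed.inter (isClosed_le (by fun_prop) (by fun_prop))
      (isClosed_le (by fun_prop) (by fun_prop))) (IsClosed.inter
      (isClosed_eq (by fun_prop) (by fun_prop)) (IsClosed.inter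
      (isClosed_iInter fun i => isClosed_eq (by fun_prop) (by fun_prop)) (IsClosed.inter
      (isClosed_iInter fun i => isClosed_iInter fun j => isClosed_le (by fun_prop) (by fun_prop))
      (IsClosed.inter (isClosed_iInter fun i => isClosed_iInter fun j =>
        isClosed_eq (by fun_prop) (by fun_prop)) (isClosed_le (by fun_prop) (by fun_prop))))))
  have hbd : Bornology.IsBounded K := by
    refine (Metric.isBounded_closedBall (x := (0 : ℝ × (Fin N → E n))) (r := 1)).subset ?_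
    rintro p ⟨⟨h0, h1⟩, h2, -⟩
    rw [mem_closedBall_zero_iff, Prod.norm_def]
    refine max_le (by rw [Real.norm_eq_abs, abs_le]; constructor <;> linarith) ?_
    refine (pi_norm_le_iff_of_nonneg zero_le_one).2 fun i => ?_
    have : ‖p.2 i‖ ^ 2 ≤ ∑ i, ‖p.2 i‖ ^ 2 :=
      Finset.single_le_sum (f := fun i => ‖p.2 i‖ ^ 2) (fun i _ => sq_nonneg _) (mem_univ i)
    nlinarith [norm_nonneg (p.2 i)]
  have hcp : IsCompact K := Metric.isCompact_of_isClosed_isBounded hcl hbd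
  have hpos : ∀ p ∈ K, 0 < p.1 := by
    rintro ⟨r, u⟩ ⟨⟨h0, -⟩, h2, h3, h4, h5, h6⟩
    simp only at h0 h2 h3 h4 h5 h6 ⊢
    rcases h0.lt_or_eq with h | h
    · exact h
    exfalso
    subst h
    have e1 : ∀ i, ⟪x i, u i⟫ = 0 := fun i => by have := h3 i; linarith
    have e2 := stress_id hWs hst u
    simp only [e1, mul_zero, Finset.sum_const_zero] at e2
    have h4' : ∀ i j, W i j * (⟪x i, u j⟫ + ⟪u i, x j⟫) ≤ 0 := fun i j => by
      simpa using h4 i j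
    have e3 : ∀ i j, W i j * (⟪x i, u j⟫ + ⟪u i, x j⟫) = 0 := by
      intro i j
      have a1 := (Finset.sum_eq_zero_iff_of_nonpos (fun i _ =>
        Finset.sum_nonpos (fun j _ => h4' i j))).1 e2 i (mem_univ i)
      exact (Finset.sum_eq_zero_iff_of_nonpos (fun j _ => h4' i j)).1 a1 j (mem_univ j)
    obtain ⟨A, hA, t, ht⟩ := hK u e1 (fun i j hij => (mul_eq_zero.1 (e3 i j)).resolve_left hij)
    have hu : u = fun i => A (x i) + t • F i := funext ht
    have e4 := B_flex hWs hst A F t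
    rw [← hu] at e4
    have ht0 : t = 0 := by
      by_contra hne
      have : 0 < t ^ 2 * B W lam F F := mul_pos (by positivity) hQ
      linarith
    subst ht0
    simp only [zero_smul, add_zero] at hu
    rw [hu] at h5 h2
    have := skew_gauge A hA h5
    linarith
  have key : ∃ r0 : ℝ, 0 < r0 ∧ r0 ≤ 1 ∧ ∀ p ∈ K, r0 ≤ p.1 := by
    rcases K.eq_empty_or_nonempty with h | h
    · exact ⟨1, one_pos, le_rfl, by simp [h]⟩
    · obtain ⟨p, hp, hmin⟩ := hcp.exists_isMinOn h continuous_fst.continuousOn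
      exact ⟨p.1, hpos p hp, hp.1.2, fun q hq => hmin hq⟩
  obtain ⟨r0, hr0, hr1, hr⟩ := key
  refine ⟨r0, hr0, fun δ h1 h2 h3 h4 => ?_⟩
  by_contra hne
  have hS : 0 < ∑ i, ‖δ i‖ ^ 2 := by
    push Not at hne
    obtain ⟨i, hi⟩ := hne
    have : ‖δ i‖ ^ 2 ≤ ∑ i, ‖δ i‖ ^ 2 :=
      Finset.single_le_sum (f := fun i => ‖δ i‖ ^ 2) (fun i _ => sq_nonneg _) (mem_univ i)
    have : 0 < ‖δ i‖ ^ 2 := by positivity
    linarith
  set ρ := Real.sqrt (∑ i, ‖δ i‖ ^ 2) with hρ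
  have hρ0 : 0 < ρ := Real.sqrt_pos.2 hS
  have hρ2 : ρ ^ 2 = ∑ i, ‖δ i‖ ^ 2 := Real.sq_sqrt hS.le
  have hρr : ρ < r0 := by
    by_contra h
    push Not at h
    nlinarith
  have h2' : ∀ i j, W i j * (⟪x i, δ j⟫ + ⟪δ i, x j⟫ + ⟪δ i, δ j⟫) ≤ 0 := by
    intro i j
    by_cases h : W i j = 0
    · simp [h]
    · exact mul_nonpos_of_nonneg_of_nonpos (hW i j) (h2 i j h)
  have hB : B W lam δ δ ≤ 0 := by
    have a1 : ∑ i, ∑ j, W i j * (⟪x i, δ j⟫ + ⟪δ i, x j⟫ + ⟪δ i, δ j⟫) ≤ 0 :=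
      Finset.sum_nonpos fun i _ => Finset.sum_nonpos fun j _ => h2' i j
    have a2 := stress_id hWs hst δ
    have a3 : ∑ i, ∑ j, W i j * (⟪x i, δ j⟫ + ⟪δ i, x j⟫ + ⟪δ i, δ j⟫) =
        ∑ i, ∑ j, W i j * (⟪x i, δ j⟫ + ⟪δ i, x j⟫) + ∑ i, ∑ j, W i j * ⟪δ i, δ j⟫ := by
      simp only [← Finset.sum_add_distrib]
      exact Finset.sum_congr rfl fun i _ => Finset.sum_congr rfl fun j _ => by ring
    have a4 : 2 * ∑ i, lam i * ⟪x i, δ i⟫ = - ∑ i, lam i * ⟪δ i, δ i⟫ := by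
      rw [Finset.mul_sum, ← Finset.sum_neg_distrib]
      refine Finset.sum_congr rfl fun i _ => ?_
      rw [real_inner_self_eq_norm_sq]
      linear_combination lam i * h1 i
    unfold B
    linarith
  have hinv : ρ⁻¹ * ρ = 1 := inv_mul_cancel₀ hρ0.ne'
  have hmem : (ρ, fun i => ρ⁻¹ • δ i) ∈ K := by
    refine ⟨⟨hρ0.le, by linarith⟩, ?_, fun i => ?_, fun i j => ?_, fun a b => ?_, ?_⟩
    · simp only [norm_smul, mul_pow, ← Finset.mul_sum, ← hρ2, Real.norm_eq_abs, sq_abs]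
      field_simp
    · simp only [norm_smul, mul_pow, Real.norm_eq_abs, sq_abs, inner_smul_right]
      linear_combination ρ⁻¹ * h1 i + ρ⁻¹ * ‖δ i‖ ^ 2 * hinv
    · simp only [inner_smul_right, real_inner_smul_left]
      have := mul_nonpos_of_nonneg_of_nonpos (inv_pos.2 hρ0).le (h2' i j)
      have e : W i j * (ρ⁻¹ * ⟪x i, δ j⟫ + ρ⁻¹ * ⟪δ i, x j⟫ + ρ * (ρ⁻¹ * (ρ⁻¹ * ⟪δ i, δ j⟫))) =
          ρ⁻¹ * (W i j * (⟪x i, δ j⟫ + ⟪δ i, x j⟫ + ⟪δ i, δ j⟫)) := by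
        linear_combination W i j * ρ⁻¹ * ⟪δ i, δ j⟫ * hinv
      linarith
    · have := h3 a b
      simp only [WithLp.ofLp_smul, Pi.smul_apply, smul_eq_mul, mul_assoc, ← Finset.mul_sum]
      rw [this]
    · have e : B W lam (fun i => ρ⁻¹ • δ i) (fun i => ρ⁻¹ • δ i) = ρ⁻¹ ^ 2 * B W lam δ δ := by
        have := B_flex hWs hst 0 δ ρ⁻¹
        simpa using this
      show B W lam (fun i => ρ⁻¹ • δ i) (fun i => ρ⁻¹ • δ i) ≤ 0
      rw [e]
      exact mul_nonpos_of_nonneg_of_nonpos (sq_nonneg _) hB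
  have := hr _ hmem
  simp only at this
  linarith

end Pool.Agent.H.MP_79ad04_gt
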