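import Pool.Agent.H.MP_79ad04_gt.Cert
import Pool.Agent.H.MP_79ad04_gt.Gauge

set_option autoImplicit false

namespace Pool.Agent.H.MP_79ad04_gt

open Finset
open scoped RealInnerProductSpace

noncomputable def X (i : Fin 64) : E 7 := WithLp.toLp 2 fun a : Fin 7 => (vv i a : ℝ) / 2
noncomputable def FF (i : Fin 64) : E 7 := WithLp.toLp 2 fun a : Fin 7 => (ff i a : ℝ)
noncomputable def DD (k : Fin 7) : E 7 := WithLp.toLp 2 fun a : Fin 7 => (dd a k : ℝ) / 2
noncomputable def Wr (i j : Fin 64) : ℝ := (ww i j : ℝ)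
noncomputable def lamr (i : Fin 64) : ℝ := (∑ j : Fin 64, (ww i j : ℝ)) / 2

lemma inner_XX (i j : Fin 64) : ⟪X i, X j⟫ = (dv i j : ℝ) / 4 := by
  rw [inner_coord]
  simp only [X, dv, Fin.sum_univ_seven]
  push_cast
  simp only [Fin.isValue, Fin.coe_ofNat_eq_mod, Nat.reduceMod]
  ring

lemma inner_XF (i j : Fin 64) : ⟪X i, FF j⟫ = (dvf i j : ℝ) / 2 := by
  rw [inner_coord]
  simp only [X, FF, dvf, Fin.sum_univ_seven]
  push_cast
  simp only [Fin.isValue, Fin.coe_ofNat_eq_mod, Nat.reduceMod]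
  ring

lemma inner_FF (i j : Fin 64) : ⟪FF i, FF j⟫ = (df i j : ℝ) := by
  rw [inner_coord]
  simp only [FF, df, Fin.sum_univ_seven]
  push_cast
  simp only [Fin.isValue, Fin.coe_ofNat_eq_mod, Nat.reduceMod]

lemma norm_X (i : Fin 64) : ‖X i‖ = 1 := by
  have h : ‖X i‖ ^ 2 = 1 ^ 2 := by
    rw [← real_inner_self_eq_norm_sq, inner_XX, (dv_self i).1]
    norm_num
  exact (pow_left_inj₀ (norm_nonneg _) zero_le_one two_ne_zero).1 h

lemma dist_sq (i j : Fin 64) : dist (X i) (X j) ^ 2 = 2 - (dv i j : ℝ) / 2 := by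
  rw [dist_eq_norm, norm_sub_sq_real, norm_X, norm_X, inner_XX]
  ring

lemma one_le_dist {i j : Fin 64} (h : i ≠ j) : 1 ≤ dist (X i) (X j) := by
  have h1 : (dv i j : ℝ) ≤ 2 := by exact_mod_cast dv_le i j h
  have h2 := dist_sq i j
  nlinarith [dist_nonneg (x := X i) (y := X j)]

lemma dist_eq_one {i j : Fin 64} : dist (X i) (X j) = 1 ↔ dv i j = 2 := by
  have h2 := dist_sq i j
  constructor
  · intro h
    rw [h] at h2
    have : (dv i j : ℝ) = 2 := by linarith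
    exact_mod_cast this
  · intro h
    rw [h] at h2
    have : dist (X i) (X j) ^ 2 = 1 ^ 2 := by rw [h2]; norm_num
    exact (pow_left_inj₀ dist_nonneg zero_le_one two_ne_zero).1 this

lemma decomp (z : E 7) : z = ∑ k, ⟪DD k, z⟫ • X (sd k) := by
  ext b
  have h : ∀ a : Fin 7, ∑ k : Fin 7, (dd a k : ℝ) * (vv (sd k) b : ℝ) = if a = b then 4 else 0 := by
    intro a
    have := dual1 a b
    split_ifs at this ⊢ <;> exact_mod_cast this
  have e : (∑ k, ⟪DD k, z⟫ • X (sd k)) b =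
      ∑ a : Fin 7, z a / 4 * ∑ k : Fin 7, (dd a k : ℝ) * (vv (sd k) b : ℝ) := by
    simp only [WithLp.ofLp_sum, Finset.sum_apply, WithLp.ofLp_smul, Pi.smul_apply, smul_eq_mul,
      inner_coord, DD, X, Finset.sum_mul, Finset.mul_sum]
    rw [Finset.sum_comm]
    exact Finset.sum_congr rfl fun a _ => Finset.sum_congr rfl fun k _ => by ring
  rw [e]
  simp [h]

lemma co_sd (k l : Fin 7) : ⟪DD l, X (sd k)⟫ = if k = l then 1 else 0 := by
  have h : ∑ a : Fin 7, (vv (sd k) a : ℝ) * (dd a l : ℝ) = if k = l then 4 else 0 := by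
    have := dual2 k l
    split_ifs at this ⊢ <;> exact_mod_cast this
  have e : ⟪DD l, X (sd k)⟫ = (∑ a : Fin 7, (vv (sd k) a : ℝ) * (dd a l : ℝ)) / 4 := by
    simp only [inner_coord, DD, X, Finset.sum_div]
    exact Finset.sum_congr rfl fun a _ => by ring
  rw [e, h]
  split_ifs <;> norm_num

lemma span_top : Submodule.span ℝ (Set.range X) = ⊤ := by
  rw [eq_top_iff]
  intro z _
  rw [decomp z]
  exact Submodule.sum_mem _ fun k _ =>
    Submodule.smul_mem _ _ (Submodule.subset_span ⟨sd k, rfl⟩)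

lemma hst (i : Fin 64) : ∑ j, Wr i j • X j = lamr i • X i := by
  ext a
  have h : 2 * ∑ j : Fin 64, (ww i j : ℝ) * (vv j a : ℝ) =
      (∑ j : Fin 64, (ww i j : ℝ)) * (vv i a : ℝ) := by exact_mod_cast stress i a
  have e : (∑ j, Wr i j • X j) a = (∑ j : Fin 64, (ww i j : ℝ) * (vv j a : ℝ)) / 2 := by
    simp only [WithLp.ofLp_sum, Finset.sum_apply, WithLp.ofLp_smul, Pi.smul_apply, smul_eq_mul,
      Wr, X, Finset.sum_div]
    exact Finset.sum_congr rfl fun j _ => by ring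
  rw [e]
  simp only [WithLp.ofLp_smul, Pi.smul_apply, smul_eq_mul, lamr, X]
  linarith

lemma hQ : 0 < B Wr lamr FF FF := by
  have h : (0 : ℝ) < 2 * ∑ i : Fin 64, ∑ j : Fin 64, (ww i j : ℝ) * (df i j : ℝ) -
    ∑ i : Fin 64, (∑ j : Fin 64, (ww i j : ℝ)) * (df i i : ℝ) := by exact_mod_cast Qpos
  have e : ∑ i, lamr i * ⟪FF i, FF i⟫ =
      (∑ i : Fin 64, (∑ j : Fin 64, (ww i j : ℝ)) * (df i i : ℝ)) / 2 := by
    rw [Finset.sum_div]
    exact Finset.sum_congr rfl fun i _ => by rw [inner_FF, lamr]; ring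
  unfold B
  rw [e]
  simp only [inner_FF, Wr]
  linarith

lemma flexr {i j : Fin 64} (h : dv i j = 2) : ⟪X i, FF j⟫ + ⟪FF i, X j⟫ = 0 := by
  have h1 : (dvf i j : ℝ) + dvf j i = 0 := by exact_mod_cast flex i j h
  rw [real_inner_comm (X j), inner_XF, inner_XF]
  linarith

lemma tangent (i : Fin 64) : ⟪X i, FF i⟫ = 0 := by
  rw [inner_XF, (dv_self i).2]
  simp

lemma zero_of_pins (w : Fin 64 → E 7) (h1 : ∀ i, ⟪X i, w i⟫ = 0)
    (h2 : ∀ i j : Fin 64, ww i j ≠ 0 → ⟪X i, w j⟫ + ⟪w i, X j⟫ = 0)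
    (h3 : ∀ k, w (sd k) = 0) (h4 : w 4 4 = 0) : ∀ i, w i = 0 := by
  set U : ℕ → ℝ := fun c => w (Fin.ofNat 64 (c / 7)) (Fin.ofNat 7 c) with hU
  have hUe : ∀ (i : Fin 64) (a : Fin 7), U (7 * i + a) = w i a := by
    intro i a
    have e1 : Fin.ofNat 64 ((7 * i + a) / 7) = i := by
      ext
      have := i.2
      have := a.2
      simp only [Fin.val_ofNat]
      omega
    have e2 : Fin.ofNat 7 (7 * i + a) = a := by
      ext
      have := a.2
      simp only [Fin.val_ofNat]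
      omega
    simp only [hU, e1, e2]
  have hZ : ∀ c, Z0.testBit c = true → U c = 0 := by
    intro c hc
    have hlt : c < 448 := by
      by_contra h
      have : Z0 < 2 ^ c := Z0_lt.trans_le (Nat.pow_le_pow_right two_pos (by omega))
      rw [Nat.testBit_eq_false_of_lt this] at hc
      exact absurd hc (by simp)
    rcases Z0_bits c hlt hc with h | h
    · have : ∃ k, Fin.ofNat 64 (c / 7) = sd k := by
        simp only [List.mem_cons, List.not_mem_nil, or_false] at h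
        rcases h with h | h | h | h | h | h | h <;> rw [h] <;> decide
      obtain ⟨k, hk⟩ := this
      show w (Fin.ofNat 64 (c / 7)) (Fin.ofNat 7 c) = 0
      rw [hk, h3]
      rfl
    · subst h
      exact h4
  have hrow : ∀ i j, valid i j → ev U (row i j) = 0 := by
    rintro i j ⟨hi, hj, hv⟩
    have key : ⟪X ⟨i, hi⟩, w ⟨j, hj⟩⟫ + ⟪w ⟨i, hi⟩, X ⟨j, hj⟩⟫ = 0 := by
      rcases hv with rfl | hv
      · rw [real_inner_comm (X _), h1]
        simp
      · exact h2 ⟨i, hi⟩ ⟨j, hj⟩ hv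
    rw [inner_coord, inner_coord] at key
    simp only [Fin.sum_univ_seven, ← hUe, X] at key
    simp only [Fin.isValue, Fin.coe_ofNat_eq_mod, Nat.reduceMod] at key
    simp only [row, ev]
    linarith
  intro i
  ext a
  rw [← hUe]
  apply kernel_zero U hZ hrow
  have := i.2
  have := a.2
  omega

lemma hK (u : Fin 64 → E 7) (h1 : ∀ i, ⟪X i, u i⟫ = 0)
    (h2 : ∀ i j, Wr i j ≠ 0 → ⟪X i, u j⟫ + ⟪u i, X j⟫ = 0) :
    ∃ A : E 7 →ₗ[ℝ] E 7, (∀ u w, ⟪A u, w⟫ = - ⟪u, A w⟫) ∧ ∃ t : ℝ,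
      ∀ i, u i = A (X i) + t • FF i := by
  have h2' : ∀ i j : Fin 64, ww i j ≠ 0 → ⟪X i, u j⟫ + ⟪u i, X j⟫ = 0 := fun i j h =>
    h2 i j (by unfold Wr; exact_mod_cast h)
  set A : E 7 →ₗ[ℝ] E 7 := ∑ k, (innerSL ℝ (DD k)).toLinearMap.smulRight (u (sd k)) with hA
  have hAe : ∀ z, A z = ∑ k, ⟪DD k, z⟫ • u (sd k) := by
    intro z
    simp [hA, LinearMap.sum_apply]
  have hkl : ∀ k l, ⟪u (sd k), X (sd l)⟫ = - ⟪X (sd k), u (sd l)⟫ := by
    intro k l
    rcases sd_valid k l with rfl | h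
    · rw [real_inner_comm, h1]
      simp
    · linarith [h2' _ _ h]
  have hskew : ∀ p q, ⟪A p, q⟫ = - ⟪p, A q⟫ := by
    intro p q
    have e1 : ⟪A p, q⟫ = ∑ k, ∑ l, ⟪DD k, p⟫ * (⟪DD l, q⟫ * ⟪u (sd k), X (sd l)⟫) := by
      rw [hAe, sum_inner]
      refine Finset.sum_congr rfl fun k _ => ?_
      rw [real_inner_smul_left, ← Finset.mul_sum]
      congr 1
      conv_lhs => rw [decomp q]
      simp only [inner_sum, inner_smul_right]
    have e2 : ⟪p, A q⟫ = ∑ k, ∑ l, ⟪DD k, p⟫ * (⟪DD l, q⟫ * ⟪X (sd k), u (sd l)⟫) := by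
      conv_lhs => rw [decomp p]
      rw [sum_inner]
      refine Finset.sum_congr rfl fun k _ => ?_
      rw [real_inner_smul_left, ← Finset.mul_sum, hAe]
      simp only [inner_sum, inner_smul_right]
    rw [e1, e2, ← Finset.sum_neg_distrib]
    refine Finset.sum_congr rfl fun k _ => ?_
    rw [← Finset.sum_neg_distrib]
    refine Finset.sum_congr rfl fun l _ => ?_
    rw [hkl]
    ring
  set t : ℝ := (u 4 4 - A (X 4) 4) / (-4) with ht
  refine ⟨A, hskew, t, fun i => ?_⟩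
  have := zero_of_pins (fun i => u i - A (X i) - t • FF i) (fun i => ?_) (fun i j h => ?_)
    (fun k => ?_) ?_ i
  · rw [sub_sub, sub_eq_zero] at this
    exact this
  · have := hskew (X i) (X i)
    rw [real_inner_comm] at this
    simp only [inner_sub_right, inner_smul_right, h1, tangent]
    linarith
  · have a1 := h2' i j h
    have a2 := flexr ((ww_facts i j).2.2 h)
    have a3 := hskew (X i) (X j)
    simp only [inner_sub_right, inner_smul_right, inner_sub_left, real_inner_smul_left]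
    linear_combination a1 - a3 - t * a2
  · have a1 : A (X (sd k)) = u (sd k) := by
      rw [hAe]
      simp [co_sd]
    have a2 : FF (sd k) = 0 := by
      ext a
      simp [FF, ff_sd]
    simp [a1, a2]
  · have a1 : FF 4 4 = -4 := by
      have : ((ff 4 4 : ℤ) : ℝ) = -4 := by exact_mod_cast ff_pin
      exact this
    simp only [WithLp.ofLp_sub, Pi.sub_apply, WithLp.ofLp_smul, Pi.smul_apply, smul_eq_mul, a1, ht]
    ring

theorem jammed : ∃ ε : ℝ, 0 < ε ∧ ∀ y : Fin 64 → E 7, (∀ i, ‖y i‖ = 1) →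
    (∀ i, dist (y i) (X i) < ε) → (∀ i j, i ≠ j → 1 ≤ dist (y i) (y j)) →
    ∃ g : E 7 ≃ₗᵢ[ℝ] E 7, ∀ i, y i = g (X i) := by
  obtain ⟨ε, hε, h⟩ := jam (W := Wr) (lam := lamr) (F := FF) norm_X
    (fun i j => by unfold Wr; exact_mod_cast (ww_facts i j).1)
    (fun i j => by unfold Wr; exact_mod_cast (ww_facts i j).2.1) hst hK hQ
  refine ⟨ε, hε, fun y h1 h2 h3 => h y h1 h2 fun i j hij => ?_⟩
  have h4 : dv i j = 2 := (ww_facts i j).2.2 (by unfold Wr at hij; exact_mod_cast hij)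
  rw [dist_eq_one.2 h4]
  apply h3
  rintro rfl
  rw [(dv_self i).1] at h4
  exact absurd h4 (by norm_num)

theorem not_inf : ¬ (∀ v : Fin 64 → E 7, (∀ i, ⟪X i, v i⟫ = 0) →
    (∀ i j, i ≠ j → dist (X i) (X j) = 1 → 0 ≤ ⟪X i - X j, v i - v j⟫) →
    ∃ A : E 7 →ₗ[ℝ] E 7, (∀ u w, ⟪A u, w⟫ = - ⟪u, A w⟫) ∧ ∀ i, v i = A (X i)) := by
  intro h
  obtain ⟨A, -, hA⟩ := h FF tangent fun i j _ hd => by
    have a := flexr (dist_eq_one.1 hd)
    rw [real_inner_comm (X j)] at a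
    simp only [inner_sub_left, inner_sub_right, tangent]
    linarith
  have h1 := hQ
  have h2 := B_lin hst A FF
  rw [show (fun i => A (X i)) = FF from funext fun i => (hA i).symm] at h2
  linarith

end Pool.Agent.H.MP_79ad04_gt
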